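import Pool.Agent.Lib.H5CY.Defs
import Pool.Agent.Lib.H24F.F2
import Pool.Agent.Lib.H40C.F2

/-! # H5CY, file E2: the union of the tree and the two paths -/

set_option autoImplicit false

namespace H5CY

open Finset H53P SimpleDraw

variable {n : ℕ} (D : SimpleDrawing n)

private theorem tab_of_plane {G : SimpleGraph (Fin n)} (hG : D.Plane G) {i j k l : Fin n} (hij : G.Adj i j)
    (hkl : G.Adj k l) : (table D).X i j k l = false := by
  change X D i j k l = false
  unfold X
  rw [decide_eq_false_iff_not]
  rintro ⟨-, -, h2, h3, h4, h5, p, hp⟩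
  have hne : s(i, j) ≠ s(k, l) := by
    intro h6
    rcases Sym2.eq_iff.1 h6 with ⟨h7, -⟩ | ⟨h7, -⟩
    · exact h2 h7
    · exact h3 h7
  obtain ⟨v, hv1, hv2, -⟩ := hG i j k l hij hkl hne p hp
  rcases hv1 with rfl | rfl
  · rcases hv2 with h | h
    · exact h2 h
    · exact h3 h
  · rcases hv2 with h | h
    · exact h4 h
    · exact h5 h

/-- (E2, S/M) planarity.
PROOF.  `H63L.plane_of_table` (file `Lib/H63L/FIN.lean`): for two adjacent pairs of `gu G P Q` the table value is
`false`: both in `G`: `hG.1` (a plane subdrawing: if `X D i j k l = true` the common point is a vertex, impossible by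
`tf5_cross`); one in `G`, the other in `P` or `Q`: `h1` (an edge of `G` joins `A` and `B`, `hG.2.1`, up to the
symmetries of `X`); both in `P` or `Q`: `h2`.  The reversed pairs: `(table D).symm1`, `symm2`. -/
theorem gu_plane {A B : Finset (Fin n)} {G : SimpleGraph (Fin n)} (hG : H24F.PT D A B G) {P Q : List (Fin n)}
    (h1 : ∀ e ∈ edges P ++ edges Q, ∀ x ∈ A, ∀ y ∈ B, (table D).X x y e.1 e.2 = false)
    (h2 : ∀ e ∈ edges P ++ edges Q, ∀ f ∈ edges P ++ edges Q, (table D).X e.1 e.2 f.1 f.2 = false) :
    D.Plane (gu G P Q) := by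
  have s1 : ∀ {a b c d : Fin n}, (table D).X a b c d = false → (table D).X b a c d = false := by
    intro a b c d h
    rw [← (table D).symm1]
    exact h
  have s2 : ∀ {a b c d : Fin n}, (table D).X a b c d = false → (table D).X c d a b = false := by
    intro a b c d h
    rw [← (table D).symm2]
    exact h
  -- an adjacent pair is an edge of `G` or a pair of the lists, in one of the two directions
  have key : ∀ i j, (gu G P Q).Adj i j → G.Adj i j ∨ (i, j) ∈ edges P ++ edges Q ∨ (j, i) ∈ edges P ++ edges Q := by
    intro i j h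
    unfold gu at h
    rw [SimpleGraph.fromRel_adj] at h
    rcases h.2 with h | h
    · rcases h with h | h | h
      · exact Or.inl h
      · exact Or.inr (Or.inl (List.mem_append_left _ h))
      · exact Or.inr (Or.inl (List.mem_append_right _ h))
    · rcases h with h | h | h
      · exact Or.inl h.symm
      · exact Or.inr (Or.inr (List.mem_append_left _ h))
      · exact Or.inr (Or.inr (List.mem_append_right _ h))
  -- an edge of `G` against a pair of the lists
  have m1 : ∀ i j, G.Adj i j → ∀ e ∈ edges P ++ edges Q, (table D).X i j e.1 e.2 = false := by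
    intro i j h e he
    rcases hG.2.1 i j h with ⟨h3, h4⟩ | ⟨h3, h4⟩
    · exact h1 e he i h3 j h4
    · exact s1 (h1 e he j h4 i h3)
  apply H63L.plane_of_table
  intro i j k l hij hkl
  rcases key i j hij with h | h | h
  · rcases key k l hkl with g | g | g
    · exact tab_of_plane D hG.1 h g
    · exact m1 i j h (k, l) g
    · exact s2 (s1 (s2 (m1 i j h (l, k) g)))
  · rcases key k l hkl with g | g | g
    · exact s2 (m1 k l g (i, j) h)
    · exact h2 (i, j) h (k, l) g
    · exact s2 (s1 (s2 (h2 (i, j) h (l, k) g)))
  · rcases key k l hkl with g | g | g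
    · exact s1 (s2 (m1 k l g (j, i) h))
    · exact s1 (h2 (j, i) h (k, l) g)
    · exact s1 (s2 (s1 (s2 (h2 (j, i) h (l, k) g))))

end H5CY
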