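import Pool.Agent.Lib.H5CY.Defs

import Pool.Agent.Lib.H40C.F2

/-! # H5CY, file E3: the number of edges -/

set_option autoImplicit false

namespace H5CY

open Finset H53P SimpleDraw

variable {n : ℕ} (D : SimpleDrawing n)

/-- (E3, S/M) A spanning tree has `n - 1` edges.
PROOF.  All vertices are in `A` or `B`, so `G` is isomorphic to `G.induce {v | v ∈ A ∨ v ∈ B}` (or show that `G` is a
tree: `SimpleGraph.IsTree` transported along `SimpleGraph.induceUnivIso`-type isomorphism), and a tree has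
`card_edgeFinset + 1 = card V` (`SimpleGraph.IsTree.card_edgeFinset`). -/
theorem tree_card {A B : Finset (Fin n)} (hall : ∀ v, v ∈ A ∨ v ∈ B) {G : SimpleGraph (Fin n)}
    (hG : PT D A B G) : G.edgeSet.ncard + 1 = n := by
  classical
  have hs : ({v | v ∈ A ∨ v ∈ B} : Set (Fin n)) = Set.univ := Set.eq_univ_of_forall hall
  have hI := hG.2.2
  rw [hs] at hI
  have h0 : G.IsTree := (SimpleGraph.induceUnivIso G).isTree_iff.1 hI
  have h1 := h0.card_edgeFinset
  rw [Fintype.card_fin] at h1
  rw [Set.ncard_eq_toFinset_card']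
  exact h1

/-- (E3b, M) The number of edges of the union.
PROOF.  `(gu G P Q).edgeSet = G.edgeSet ∪ (pairs of P) ∪ (pairs of Q)`, pairwise disjoint: the edges of `G` have one
end in `A`, one in `B`, those of `P` both ends in `A`, those of `Q` both ends in `B` (`H40C.f2b_mem`).  The numbers
are `n - 1` (`tree_card`), `P.length - 1`, `Q.length - 1` (`H40C.f2b_card`), `P.length = A.card`,
`Q.length = B.card`, `A.card + B.card = n`, both positive.  Compare the proof of `H40C.starPath_card` (file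
`Lib/H40C/F2B.lean`). -/
theorem gu_card {A B : Finset (Fin n)} (hAB : Disjoint A B) (hall : ∀ v, v ∈ A ∨ v ∈ B) (hA : A.Nonempty)
    (hB : B.Nonempty) {G : SimpleGraph (Fin n)} (hG : PT D A B G) {P Q : List (Fin n)} (hP : P.Nodup)
    (hQ : Q.Nodup) (hPA : ∀ x, x ∈ P ↔ x ∈ A) (hQB : ∀ x, x ∈ Q ↔ x ∈ B) :
    (gu G P Q).edgeSet.ncard = 2 * n - 3 := by
  classical
  have hT := tree_card D hall hG
  have hadj := hG.2.1
  have hPl : P.length = A.card := by
    have h1 : P.toFinset = A := by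
      ext x
      rw [List.mem_toFinset, hPA]
    rw [← List.toFinset_card_of_nodup hP, h1]
  have hQl : Q.length = B.card := by
    have h1 : Q.toFinset = B := by
      ext x
      rw [List.mem_toFinset, hQB]
    rw [← List.toFinset_card_of_nodup hQ, h1]
  have hABn : A.card + B.card = n := by
    rw [← Finset.card_union_of_disjoint hAB]
    have h1 : A ∪ B = Finset.univ := by
      ext x
      simp [hall x]
    rw [h1, Finset.card_univ, Fintype.card_fin]
  have hA1 : 0 < A.card := hA.card_pos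
  have hB1 : 0 < B.card := hB.card_pos
  set S : Finset (Sym2 (Fin n)) := G.edgeSet.toFinset with hS
  set T : Finset (Sym2 (Fin n)) := ((edges P).map fun e => s(e.1, e.2)).toFinset with hTd
  set U : Finset (Sym2 (Fin n)) := ((edges Q).map fun e => s(e.1, e.2)).toFinset with hU
  have hScard : S.card + 1 = n := by
    rw [← Set.ncard_eq_toFinset_card'] 
    exact hT
  have hTcard : T.card = A.card - 1 := by rw [hTd, H40C.f2b_card P hP, hPl]
  have hUcard : U.card = B.card - 1 := by rw [hU, H40C.f2b_card Q hQ, hQl]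
  have hnot : ∀ x, x ∈ A → x ∈ B → False := fun x h1 h2 => Finset.disjoint_left.1 hAB h1 h2
  have hTm : ∀ a b, s(a, b) ∈ T → a ∈ A ∧ b ∈ A := by
    intro a b h
    rw [hTd, List.mem_toFinset, List.mem_map] at h
    obtain ⟨e, he, hes⟩ := h
    obtain ⟨h2, h3⟩ := H40C.f2b_mem _ e he
    rw [hPA] at h2 h3
    rw [Sym2.eq_iff] at hes
    rcases hes with ⟨h5, h6⟩ | ⟨h5, h6⟩
    · exact ⟨h5 ▸ h2, h6 ▸ h3⟩
    · exact ⟨h6 ▸ h3, h5 ▸ h2⟩
  have hUm : ∀ a b, s(a, b) ∈ U → a ∈ B ∧ b ∈ B := by
    intro a b h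
    rw [hU, List.mem_toFinset, List.mem_map] at h
    obtain ⟨e, he, hes⟩ := h
    obtain ⟨h2, h3⟩ := H40C.f2b_mem _ e he
    rw [hQB] at h2 h3
    rw [Sym2.eq_iff] at hes
    rcases hes with ⟨h5, h6⟩ | ⟨h5, h6⟩
    · exact ⟨h5 ▸ h2, h6 ▸ h3⟩
    · exact ⟨h6 ▸ h3, h5 ▸ h2⟩
  have hd1 : Disjoint S T := by
    rw [Finset.disjoint_left]
    intro x hx hx'
    induction x using Sym2.ind with
    | _ a b =>
      rw [hS, Set.mem_toFinset, SimpleGraph.mem_edgeSet] at hx
      obtain ⟨h1, h2⟩ := hTm a b hx'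
      rcases hadj a b hx with ⟨_, h4⟩ | ⟨h3, _⟩
      · exact hnot b h2 h4
      · exact hnot a h1 h3
  have hd2 : Disjoint (S ∪ T) U := by
    rw [Finset.disjoint_left]
    intro x hx hx'
    induction x using Sym2.ind with
    | _ a b =>
      obtain ⟨h1, h2⟩ := hUm a b hx'
      rcases Finset.mem_union.1 hx with hx | hx
      · rw [hS, Set.mem_toFinset, SimpleGraph.mem_edgeSet] at hx
        rcases hadj a b hx with ⟨h3, _⟩ | ⟨_, h4⟩
        · exact hnot a h3 h1
        · exact hnot b h4 h2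
      · exact hnot a (hTm a b hx).1 h1
  have hset : (gu G P Q).edgeSet = ↑(S ∪ T ∪ U) := by
    ext x
    induction x using Sym2.ind with
    | _ a b =>
      rw [SimpleGraph.mem_edgeSet, gu, SimpleGraph.fromRel_adj, Finset.mem_coe, Finset.mem_union,
        Finset.mem_union, hS, hTd, hU, Set.mem_toFinset, SimpleGraph.mem_edgeSet, List.mem_toFinset,
        List.mem_map, List.mem_toFinset, List.mem_map]
      constructor
      · rintro ⟨hab, (h | h | h) | (h | h | h)⟩
        · exact Or.inl (Or.inl h)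
        · exact Or.inl (Or.inr ⟨(a, b), h, rfl⟩)
        · exact Or.inr ⟨(a, b), h, rfl⟩
        · exact Or.inl (Or.inl h.symm)
        · exact Or.inl (Or.inr ⟨(b, a), h, Sym2.eq_swap⟩)
        · exact Or.inr ⟨(b, a), h, Sym2.eq_swap⟩
      · rintro ((h | ⟨e, he, h⟩) | ⟨e, he, h⟩)
        · exact ⟨h.ne, Or.inl (Or.inl h)⟩
        · have hne := H40C.f2b_ne P hP e he
          rw [Sym2.eq_iff] at h
          rcases h with ⟨rfl, rfl⟩ | ⟨rfl, rfl⟩
          · exact ⟨hne, Or.inl (Or.inr (Or.inl he))⟩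
          · exact ⟨fun h => hne h.symm, Or.inr (Or.inr (Or.inl he))⟩
        · have hne := H40C.f2b_ne Q hQ e he
          rw [Sym2.eq_iff] at h
          rcases h with ⟨rfl, rfl⟩ | ⟨rfl, rfl⟩
          · exact ⟨hne, Or.inl (Or.inr (Or.inr he))⟩
          · exact ⟨fun h => hne h.symm, Or.inr (Or.inr (Or.inr he))⟩
  rw [hset, Set.ncard_coe_finset, Finset.card_union_of_disjoint hd2,
    Finset.card_union_of_disjoint hd1, hTcard, hUcard]
  omega

end H5CY
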