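import Pool.Agent.Lib.H5CY.Defs
import Pool.Agent.Lib.H40C.F2

/-! # H5CY, file E4: the Hamiltonian cycle -/

set_option autoImplicit false

namespace H5CY

open H53P SimpleDraw

variable {n : ℕ}

/-- consecutive elements of a part `l` of `P` or `Q` are adjacent in `gu G P Q` -/
theorem gu_chain (G : SimpleGraph (Fin n)) (P Q : List (Fin n)) : ∀ l : List (Fin n), l.Nodup →
    (∀ e ∈ edges l, e ∈ edges P ∨ e ∈ edges Q) → l.IsChain (gu G P Q).Adj
  | [], _, _ => List.IsChain.nil
  | [_], _, _ => List.IsChain.singleton _
  | x :: y :: l, hnd, h => by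
      rw [List.isChain_cons_cons]
      refine ⟨?_, gu_chain G P Q (y :: l) (List.nodup_cons.1 hnd).2 fun e he => h e ?_⟩
      · have hxy : x ≠ y := by
          intro hxy
          subst hxy
          exact (List.nodup_cons.1 hnd).1 List.mem_cons_self
        have h1 := h (x, y) (by simp [edges])
        exact ⟨hxy, Or.inl (Or.inr h1)⟩
      · change e ∈ (x, y) :: edges (y :: l)
        exact List.mem_cons_of_mem _ he

theorem gu_adj_of (G : SimpleGraph (Fin n)) (P Q : List (Fin n)) {x y : Fin n} (h : G.Adj x y) :
    (gu G P Q).Adj x y := by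
  rw [gu, SimpleGraph.fromRel_adj]
  exact ⟨h.ne, Or.inl (Or.inl h)⟩

/-- (E4, S/M) PROOF.  `SimpleDraw.ham_of_list` with the list `P ++ Q.reverse` in the first case (`a … a' b' … b`, then
back to `a`) and `P ++ Q` in the second case (`a … a' b … b'`, then back to `a`).  The length is `n ≥ 3` (nodup and
all vertices).  The chain: `List.isChain_append`, consecutive elements of `P`, `Q` are pairs of `edges` (see
`H40C.f2c_chain`, prove a version for `gu`), for the reversed list `List.isChain_reverse` and the symmetry of `Adj`.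
Different: `Nodup`. -/
theorem gu_ham (hn : 3 ≤ n) (G : SimpleGraph (Fin n)) {P Q : List (Fin n)} (hnd : (P ++ Q).Nodup)
    (hall : ∀ v, v ∈ P ++ Q) {a a' b b' : Fin n} (ha : P.head? = some a) (ha' : P.getLast? = some a')
    (hb : Q.head? = some b) (hb' : Q.getLast? = some b')
    (h : (G.Adj a b ∧ G.Adj a' b') ∨ (G.Adj a b' ∧ G.Adj a' b)) :
    ∃ (x : Fin n) (p : (gu G P Q).Walk x x), p.IsHamiltonianCycle := by
  have hlen : (P ++ Q).length = n := by
    rw [← List.toFinset_card_of_nodup hnd]
    have h1 : (P ++ Q).toFinset = Finset.univ := by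
      ext w
      simp only [List.mem_toFinset, Finset.mem_univ, iff_true]
      exact hall w
    rw [h1, Finset.card_univ, Fintype.card_fin]
  have hPnd : P.Nodup := (List.nodup_append.1 hnd).1
  have hQnd : Q.Nodup := (List.nodup_append.1 hnd).2.1
  have hcP : P.IsChain (gu G P Q).Adj := gu_chain G P Q P hPnd fun e he => Or.inl he
  have hcQ : Q.IsChain (gu G P Q).Adj := gu_chain G P Q Q hQnd fun e he => Or.inr he
  rcases h with ⟨h1, h2⟩ | ⟨h1, h2⟩
  · -- `P ++ Q.reverse`
    have hperm : (P ++ Q.reverse).Perm (P ++ Q) := List.Perm.append_left P (List.reverse_perm Q)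
    have hcR : Q.reverse.IsChain (gu G P Q).Adj := by
      rw [List.isChain_reverse]
      exact hcQ.imp fun x y hxy => hxy.symm
    refine ham_of_list (P ++ Q.reverse) ?_ ?_ ?_ ?_ (a := a) (b := b) ?_ ?_ ?_
    · rw [hperm.length_eq, hlen]
      exact hn
    · exact hperm.nodup_iff.2 hnd
    · intro w
      exact hperm.mem_iff.2 (hall w)
    · rw [List.isChain_append]
      refine ⟨hcP, hcR, ?_⟩
      intro x hx y hy
      rw [ha'] at hx
      rw [List.head?_reverse, hb'] at hy
      simp only [Option.mem_def, Option.some.injEq] at hx hy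
      subst hx
      subst hy
      exact gu_adj_of G P Q h2
    · rw [List.head?_append, ha]
      rfl
    · rw [List.getLast?_append, List.getLast?_reverse, hb]
      rfl
    · exact gu_adj_of G P Q h1.symm
  · -- `P ++ Q`
    refine ham_of_list (P ++ Q) ?_ hnd hall ?_ (a := a) (b := b') ?_ ?_ ?_
    · rw [hlen]
      exact hn
    · rw [List.isChain_append]
      refine ⟨hcP, hcQ, ?_⟩
      intro x hx y hy
      rw [ha'] at hx
      rw [hb] at hy
      simp only [Option.mem_def, Option.some.injEq] at hx hy
      subst hx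
      subst hy
      exact gu_adj_of G P Q h2
    · rw [List.head?_append, ha]
      rfl
    · rw [List.getLast?_append, hb']
      rfl
    · exact gu_adj_of G P Q h1.symm

end H5CY
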