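import Pool.Agent.Lib.H5CY.E1
import Pool.Agent.Lib.H5CY.E2
import Pool.Agent.Lib.H5CY.E3
import Pool.Agent.Lib.H5CY.E4

/-! # H5CY, file F1: the two paths theorem -/

set_option autoImplicit false

namespace H5CY

open Finset H53P SimpleDraw

variable {n : ℕ}

/-- (F1, S/M) TWO PATHS THEOREM.  Two disjoint paths `P`, `Q` which together contain all vertices, whose edges are not
crossed by each other nor by the edges between a vertex of `P` and a vertex of `Q`.
PROOF.  `A = P.toFinset`, `B = Q.toFinset`, nonempty and disjoint; `a, a', b, b'` the ends of `P`, `Q`.  If `a = a'`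
then `P = [a]` (nodup) and `A = {a}`; `cy_tree`, `cy_star` give `G` with `a b`, `a b'`.  If `b = b'`: the same with
`A`, `B` exchanged.  Otherwise `cy_weights`.  `H24F.PT D A B G` and `H5CY.PT D A B G` are the same definition (and
symmetric in `A`, `B` up to reordering).  The graph is `gu G P Q`: `gu_plane`, `gu_card`, `gu_ham`. -/
theorem two_paths (hn : 3 ≤ n) (D : SimpleDrawing n) {P Q : List (Fin n)} (hP : P ≠ []) (hQ : Q ≠ [])
    (hnd : (P ++ Q).Nodup) (hall : ∀ v, v ∈ P ++ Q)
    (h1 : ∀ e ∈ edges P ++ edges Q, ∀ x ∈ P, ∀ y ∈ Q, (table D).X x y e.1 e.2 = false)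
    (h2 : ∀ e ∈ edges P ++ edges Q, ∀ f ∈ edges P ++ edges Q, (table D).X e.1 e.2 f.1 f.2 = false) :
    D.HasPlaneHamiltonian := by
  classical
  have hPnd : P.Nodup := (List.nodup_append.1 hnd).1
  have hQnd : Q.Nodup := (List.nodup_append.1 hnd).2.1
  have hdis : ∀ x, x ∈ P → x ∈ Q → False := fun x hx hy => (List.nodup_append.1 hnd).2.2 x hx x hy rfl
  have hPA : ∀ x, x ∈ P ↔ x ∈ P.toFinset := fun x => by rw [List.mem_toFinset]
  have hQB : ∀ x, x ∈ Q ↔ x ∈ Q.toFinset := fun x => by rw [List.mem_toFinset]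
  have hAB : Disjoint P.toFinset Q.toFinset := disjoint_left.2 fun x hx hy => hdis x ((hPA x).2 hx) ((hQB x).2 hy)
  have hall' : ∀ v, v ∈ P.toFinset ∨ v ∈ Q.toFinset := fun v => by
    rw [← hPA, ← hQB]; exact List.mem_append.1 (hall v)
  have ha : P.head? = some (P.head hP) := List.head?_eq_some_head hP
  have ha' : P.getLast? = some (P.getLast hP) := List.getLast?_eq_some_getLast hP
  have hb : Q.head? = some (Q.head hQ) := List.head?_eq_some_head hQ
  have hb' : Q.getLast? = some (Q.getLast hQ) := List.getLast?_eq_some_getLast hQ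
  have ma : P.head hP ∈ P := List.head_mem hP
  have ma' : P.getLast hP ∈ P := List.getLast_mem hP
  have mb : Q.head hQ ∈ Q := List.head_mem hQ
  have mb' : Q.getLast hQ ∈ Q := List.getLast_mem hQ
  have single : ∀ {L : List (Fin n)} (hL : L ≠ []), L.Nodup → L.head hL = L.getLast hL → L.toFinset = {L.head hL} := by
    intro L hL hnd h
    cases L with
    | nil => exact absurd rfl hL
    | cons x l =>
      cases l with
      | nil => simp
      | cons y l =>
        exfalso
        have h3 : (x :: y :: l).getLast hL ∈ y :: l := by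
          rw [List.getLast_cons (List.cons_ne_nil y l)]
          exact List.getLast_mem _
        rw [← h] at h3
        exact (List.nodup_cons.1 hnd).1 h3
  have hne : P.toFinset.Nonempty := ⟨_, (hPA _).1 ma⟩
  have hneB : Q.toFinset.Nonempty := ⟨_, (hQB _).1 mb⟩
  obtain ⟨G, hG, hadj⟩ : ∃ G : SimpleGraph (Fin n), H24F.PT D P.toFinset Q.toFinset G ∧
      ((G.Adj (P.head hP) (Q.head hQ) ∧ G.Adj (P.getLast hP) (Q.getLast hQ)) ∨
        (G.Adj (P.head hP) (Q.getLast hQ) ∧ G.Adj (P.getLast hP) (Q.head hQ))) := by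
    by_cases hp : P.head hP = P.getLast hP
    · obtain ⟨G, hG⟩ := cy_tree D hAB hne hneB
      refine ⟨G, hG, Or.inl ⟨cy_star D hAB hG (single hP hPnd hp) ((hQB _).1 mb), ?_⟩⟩
      rw [← hp]
      exact cy_star D hAB hG (single hP hPnd hp) ((hQB _).1 mb')
    by_cases hq : Q.head hQ = Q.getLast hQ
    · obtain ⟨G, hG⟩ := cy_tree D hAB hne hneB
      have hG' : H24F.PT D Q.toFinset P.toFinset G := by
        refine ⟨hG.1, fun u v h => (hG.2.1 u v h).symm, ?_⟩
        have hs : ({v | v ∈ Q.toFinset ∨ v ∈ P.toFinset} : Set (Fin n)) = {v | v ∈ P.toFinset ∨ v ∈ Q.toFinset} := by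
          ext x; exact or_comm
        rw [hs]
        exact hG.2.2
      refine ⟨G, hG, Or.inl ⟨(cy_star D hAB.symm hG' (single hQ hQnd hq) ((hPA _).1 ma)).symm, ?_⟩⟩
      rw [← hq]
      exact (cy_star D hAB.symm hG' (single hQ hQnd hq) ((hPA _).1 ma')).symm
    · exact cy_weights D hAB ((hPA _).1 ma) ((hPA _).1 ma') hp ((hQB _).1 mb) ((hQB _).1 mb') hq
  refine ⟨gu G P Q, gu_plane D hG (fun e he x hx y hy => h1 e he x ((hPA x).2 hx) y ((hQB y).2 hy)) h2,
    gu_card D hAB hall' hne hneB hG hPnd hQnd hPA hQB, ?_⟩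
  exact gu_ham hn G hnd hall ha ha' hb hb' hadj

/-- (F1b, S) uncrossed paths.  PROOF.  `two_paths`; a consecutive pair of a `Good` chain is `Good` (an induction on the
list, `edges (x :: y :: l) = (x, y) :: edges (y :: l)`). -/
theorem two_good_paths (hn : 3 ≤ n) (D : SimpleDrawing n) {P Q : List (Fin n)} (hP : P ≠ []) (hQ : Q ≠ [])
    (hnd : (P ++ Q).Nodup) (hall : ∀ v, v ∈ P ++ Q) (h1 : P.IsChain (Good (table D)))
    (h2 : Q.IsChain (Good (table D))) : D.HasPlaneHamiltonian := by
  have key : ∀ l : List (Fin n), l.IsChain (Good (table D)) → ∀ e ∈ edges l, Good (table D) e.1 e.2 := by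
    intro l
    induction l with
    | nil => intro _ e he; exact absurd he (List.not_mem_nil)
    | cons x l ih =>
      cases l with
      | nil => intro _ e he; exact absurd he (by simp [edges])
      | cons y l =>
        intro h e he
        rw [List.isChain_cons_cons] at h
        have he' : e ∈ (x, y) :: edges (y :: l) := he
        rcases List.mem_cons.1 he' with h3 | h3
        · rw [h3]; exact h.1
        · exact ih h.2 e h3
  have hgood : ∀ e ∈ edges P ++ edges Q, Good (table D) e.1 e.2 := by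
    intro e he
    rcases List.mem_append.1 he with h3 | h3
    · exact key P h1 e h3
    · exact key Q h2 e h3
  exact two_paths hn D hP hQ hnd hall (fun e he x _ y _ => hgood e he x y) fun e he f hf => hgood f hf e.1 e.2

end H5CY
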