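import Pool.Agent.Lib.H5CY.Defs

/-! # H5CY, file A1: two curves in a circle do not cross -/

set_option autoImplicit false

namespace H5CY

open Set H53P SimpleDraw

/-- (A1, M) Two subsets of a circle have no proper crossing.
PROOF.  Let `h` be the chart of the proper crossing, `h p = 0`; `p ∈ e` (`(h p).im = 0`), so `‖p - c‖ = ρ > 0`.
`ψ z = ((z - c) / (p - c)).arg` is continuous at the points `z` near `p` (there `(z - c) / (p - c)` is in
`Complex.slitPlane`) and injective on the circle (same norm and same argument).  `h.target` is open and contains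
`0`: choose `ε > 0` with `h.symm z` defined and `(h.symm z - c) / (p - c) ∈ slitPlane` for `‖z‖ < 2 ε`.
`g t = ψ (h.symm t)`, `t ∈ [-ε, ε]` is continuous and injective (`h.symm t ∈ e`, so it is on the circle), so
strictly monotone or antitone (`ContinuousOn.strictMonoOn_of_injOn_Icc'`), `g 0 = 0` lies strictly between
`g (-ε)` and `g ε`.  `k s = ψ (h.symm (s * I))` is continuous at `0`, `k 0 = 0`; so for some small `s ≠ 0` the value
`k s` is between `g (-ε)` and `g ε`, and `k s = g t` for some `t ∈ [-ε, ε]` (`intermediate_value_Icc`,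
`intermediate_value_Icc'`); `h.symm (s * I) ∈ f` is on the circle too.  So `h.symm (s * I) = h.symm t`,
`s * I = t`, `s = 0`: contradiction. -/
theorem cy_overlap {e f : Set ℂ} {c p : ℂ} {ρ : ℝ} (hρ : 0 < ρ) (he : ∀ z ∈ e, ‖z - c‖ = ρ)
    (hf : ∀ z ∈ f, ‖z - c‖ = ρ) (h : ProperCrossing e f p) : False := by
  obtain ⟨h, hp, h0, hE, hF⟩ := h
  have hpe : p ∈ e := (hE p hp).2 (by rw [h0]; simp)
  have hpc : ‖p - c‖ = ρ := he p hpe
  have hpc0 : p - c ≠ 0 := by
    intro h1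
    rw [h1, norm_zero] at hpc
    exact hρ.ne hpc
  have h0t : (0 : ℂ) ∈ h.target := by
    rw [← h0]
    exact h.map_source hp
  have hs0 : h.symm 0 = p := by
    rw [← h0]
    exact h.left_inv hp
  obtain ⟨q, hq⟩ : ∃ q : ℂ → ℂ, q = fun w => (h.symm w - c) / (p - c) := ⟨_, rfl⟩
  have hqx : ∀ w, q w = (h.symm w - c) / (p - c) := fun w => by rw [hq]
  have hqc : ∀ w ∈ h.target, ContinuousAt q w := by
    intro w hw
    rw [hq]
    exact ((h.symm.continuousAt hw).sub continuousAt_const).div_const _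
  have hq0 : q 0 = 1 := by
    rw [hqx, hs0]
    exact div_self hpc0
  have hev : ∀ᶠ w in nhds (0 : ℂ), w ∈ h.target ∧ q w ∈ Complex.slitPlane := by
    refine (h.open_target.eventually_mem h0t).and ?_
    refine (hqc 0 h0t).eventually_mem ?_
    rw [hq0]
    exact Complex.isOpen_slitPlane.mem_nhds (by simp)
  obtain ⟨δ, hδ, hball⟩ := Metric.eventually_nhds_iff_ball.1 hev
  obtain ⟨G, hG⟩ : ∃ G : ℂ → ℝ, G = fun w => (q w).arg := ⟨_, rfl⟩
  have hGx : ∀ w, G w = (q w).arg := fun w => by rw [hG]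
  have hGc : ∀ w ∈ Metric.ball (0 : ℂ) δ, ContinuousAt G w := by
    intro w hw
    rw [hG]
    exact (Complex.continuousAt_arg (hball w hw).2).comp (hqc w (hball w hw).1)
  have hG0 : G 0 = 0 := by rw [hGx, hq0, Complex.arg_one]
  -- points over the two axes
  have hinj : ∀ w₁ ∈ Metric.ball (0 : ℂ) δ, ∀ w₂ ∈ Metric.ball (0 : ℂ) δ, ‖h.symm w₁ - c‖ = ρ →
      ‖h.symm w₂ - c‖ = ρ → G w₁ = G w₂ → w₁ = w₂ := by
    intro w₁ hw₁ w₂ hw₂ hn₁ hn₂ hg
    rw [hGx, hGx] at hg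
    have h1 : ‖q w₁‖ = ‖q w₂‖ := by
      rw [hqx, hqx, norm_div, norm_div, hn₁, hn₂]
    have h2 : q w₁ = q w₂ := Complex.ext_norm_arg h1 hg
    rw [hqx, hqx, div_left_inj' hpc0] at h2
    have h3 : h.symm w₁ = h.symm w₂ := sub_left_inj.1 h2
    have h4 := congrArg h h3
    rwa [h.right_inv (hball w₁ hw₁).1, h.right_inv (hball w₂ hw₂).1] at h4
  have hre : ∀ t : ℝ, (t : ℂ) ∈ Metric.ball (0 : ℂ) δ → ‖h.symm (t : ℂ) - c‖ = ρ := by
    intro t ht
    refine he _ ((hE _ (h.map_target (hball _ ht).1)).2 ?_)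
    rw [h.right_inv (hball _ ht).1]
    exact Complex.ofReal_im t
  have him : ∀ t : ℝ, (t : ℂ) * Complex.I ∈ Metric.ball (0 : ℂ) δ →
      ‖h.symm ((t : ℂ) * Complex.I) - c‖ = ρ := by
    intro t ht
    refine hf _ ((hF _ (h.map_target (hball _ ht).1)).2 ?_)
    rw [h.right_inv (hball _ ht).1]
    simp
  obtain ⟨ε, hε, hεδ⟩ : ∃ ε : ℝ, 0 < ε ∧ ε < δ := ⟨δ / 2, by linarith, by linarith⟩
  have hb1 : ∀ t ∈ Icc (-ε) ε, (t : ℂ) ∈ Metric.ball (0 : ℂ) δ := by
    intro t ht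
    rw [mem_ball_zero_iff, Complex.norm_real, Real.norm_eq_abs]
    exact lt_of_le_of_lt (abs_le.2 ⟨ht.1, ht.2⟩) hεδ
  have hb2 : ∀ t : ℝ, |t| < δ → (t : ℂ) * Complex.I ∈ Metric.ball (0 : ℂ) δ := by
    intro t ht
    rw [mem_ball_zero_iff, norm_mul, Complex.norm_I, mul_one, Complex.norm_real, Real.norm_eq_abs]
    exact ht
  obtain ⟨g, hg⟩ : ∃ g : ℝ → ℝ, g = fun t : ℝ => G (t : ℂ) := ⟨_, rfl⟩
  have hgx : ∀ t, g t = G (t : ℂ) := fun t => by rw [hg]
  have hgc : ContinuousOn g (Icc (-ε) ε) := by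
    intro t ht
    rw [hg]
    have h1 : ContinuousAt (fun t : ℝ => G (t : ℂ)) t :=
      ContinuousAt.comp (f := fun t : ℝ => (t : ℂ)) (g := G) (hGc _ (hb1 t ht)) Complex.continuous_ofReal.continuousAt
    exact h1.continuousWithinAt
  have hgi : InjOn g (Icc (-ε) ε) := by
    intro t₁ ht₁ t₂ ht₂ h1
    rw [hgx, hgx] at h1
    have h2 := hinj _ (hb1 t₁ ht₁) _ (hb1 t₂ ht₂) (hre _ (hb1 t₁ ht₁)) (hre _ (hb1 t₂ ht₂)) h1
    exact_mod_cast h2
  have hg0 : g 0 = 0 := by rw [hgx, Complex.ofReal_zero, hG0]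
  have hab : -ε ≤ ε := by linarith
  have hm1 : -ε ∈ Icc (-ε) ε := ⟨le_rfl, hab⟩
  have hm2 : (0 : ℝ) ∈ Icc (-ε) ε := ⟨by linarith, hε.le⟩
  have hm3 : ε ∈ Icc (-ε) ε := ⟨hab, le_rfl⟩
  -- the function on the other axis
  have hkc : ContinuousAt (fun t : ℝ => G ((t : ℂ) * Complex.I)) 0 := by
    have h1 : ContinuousAt (fun t : ℝ => (t : ℂ) * Complex.I) 0 :=
      (Complex.continuous_ofReal.mul continuous_const).continuousAt
    refine ContinuousAt.comp (f := fun t : ℝ => (t : ℂ) * Complex.I) (g := G) ?_ h1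
    refine hGc _ ?_
    rw [Complex.ofReal_zero, zero_mul]
    exact Metric.mem_ball_self hδ
  have hk0 : G (((0 : ℝ) : ℂ) * Complex.I) = 0 := by
    rw [Complex.ofReal_zero, zero_mul, hG0]
  -- conclusion from a common value
  have hfin : ∀ a b : ℝ, a < 0 → 0 < b → (Icc a b ⊆ g '' Icc (-ε) ε) → False := by
    intro a b ha hb hsub
    have h1 : ∀ᶠ t : ℝ in nhds (0 : ℝ), G ((t : ℂ) * Complex.I) ∈ Ioo a b := by
      refine hkc.eventually_mem ?_
      show Ioo a b ∈ nhds (G (((0 : ℝ) : ℂ) * Complex.I))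
      rw [hk0]
      exact Ioo_mem_nhds ha hb
    obtain ⟨η, hη, hηb⟩ := Metric.eventually_nhds_iff_ball.1 h1
    obtain ⟨s, hs, hsη, hsδ⟩ : ∃ s : ℝ, 0 < s ∧ s < η ∧ s < δ := by
      refine ⟨min η δ / 2, ?_, ?_, ?_⟩
      · have := lt_min hη hδ
        linarith
      · have h2 := min_le_left η δ
        have := lt_min hη hδ
        linarith
      · have h2 := min_le_right η δ
        have := lt_min hη hδ
        linarith
    have hsb : s ∈ Metric.ball (0 : ℝ) η := by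
      rw [mem_ball_zero_iff, Real.norm_eq_abs, abs_of_pos hs]
      exact hsη
    have h3 := hηb s hsb
    obtain ⟨t, ht, hgt⟩ := hsub ⟨h3.1.le, h3.2.le⟩
    rw [hgx] at hgt
    have hsb2 := hb2 s (by rw [abs_of_pos hs]; exact hsδ)
    have h4 := hinj _ (hb1 t ht) _ hsb2 (hre _ (hb1 t ht)) (him _ hsb2) hgt
    have h5 := congrArg Complex.im h4
    simp at h5
    exact hs.ne h5
  rcases hgc.strictMonoOn_of_injOn_Icc' hab hgi with hmono | hanti
  · have h1 : g (-ε) < 0 := by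
      rw [← hg0]
      exact hmono hm1 hm2 (by linarith)
    have h2 : 0 < g ε := by
      rw [← hg0]
      exact hmono hm2 hm3 hε
    exact hfin _ _ h1 h2 (intermediate_value_Icc hab hgc)
  · have h1 : 0 < g (-ε) := by
      rw [← hg0]
      exact hanti hm1 hm2 (by linarith)
    have h2 : g ε < 0 := by
      rw [← hg0]
      exact hanti hm2 hm3 hε
    exact hfin _ _ h2 h1 (intermediate_value_Icc' hab hgc)

end H5CY
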