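import Pool.Agent.Lib.H5CY.Defs

/-! # H5CY, file A2: the complementary arc of a circle -/

set_option autoImplicit false

namespace H5CY

open Set H53P SimpleDraw

/-- (A2, S/M) The circle minus a closed arc is preconnected.
PROOF.  It is the image of `Ioo β (α + 2π)` under the continuous map `t ↦ cpt c ρ t` (`th1_aux_cont`; `cpt` unfolds
to that function), use `isPreconnected_Ioo.image`.  A point of the circle is `cpt c ρ θ` with
`θ ∈ [α, α + 2π)` (`th9_angle`), and `θ ≤ β` puts it into `arcS c ρ α β`.  Conversely, if `θ ∈ (β, α + 2π)` and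
`cpt c ρ θ = cpt c ρ θ'` with `θ' ∈ [α, β]`, then `|θ - θ'| < 2π` and `θ = θ'` (`th5_cpt_inj`), contradiction. The
norm: `th7_norm` / `th5_cpt_norm`. -/
theorem cy_compl {c : ℂ} {ρ α β : ℝ} (hρ : 0 < ρ) (h1 : α < β) (h2 : β < α + 2 * Real.pi) :
    IsPreconnected {z : ℂ | ‖z - c‖ = ρ ∧ z ∉ arcS c ρ α β} := by
  have hset : {z : ℂ | ‖z - c‖ = ρ ∧ z ∉ arcS c ρ α β} =
      (fun t : ℝ => c + ρ * Complex.exp (t * Complex.I)) '' Ioo β (α + 2 * Real.pi) := by
    ext z
    constructor
    · rintro ⟨hz, hz'⟩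
      obtain ⟨θ, hθ, hzθ⟩ := th9_angle hz α
      refine ⟨θ, ⟨?_, hθ.2⟩, hzθ.symm⟩
      by_contra hle
      exact hz' ⟨θ, ⟨hθ.1, not_lt.1 hle⟩, hzθ.symm⟩
    · rintro ⟨θ, hθ, rfl⟩
      refine ⟨th5_cpt_norm c hρ θ, ?_⟩
      rintro ⟨θ', hθ', h⟩
      have hd : |θ' - θ| < 2 * Real.pi := by
        rw [abs_lt]
        constructor
        · have := hθ'.1
          have := hθ.2
          linarith
        · have := hθ'.2
          have := hθ.1
          have := Real.pi_pos
          linarith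
      have h3 : θ' = θ := th5_cpt_inj hρ h hd
      have := hθ'.2
      have := hθ.1
      linarith
  rw [hset]
  exact isPreconnected_Ioo.image _ (th1_aux_cont c ρ).continuousOn

/-- (A2b, S) A circle is preconnected.  PROOF.  It is the range of the continuous map `t ↦ cpt c ρ t`
(`th9_angle`, `isPreconnected_range`). -/
theorem cy_sphere {c : ℂ} {ρ : ℝ} (hρ : 0 < ρ) : IsPreconnected {z : ℂ | ‖z - c‖ = ρ} := by
  have hset : {z : ℂ | ‖z - c‖ = ρ} =
      range (fun t : ℝ => c + ρ * Complex.exp (t * Complex.I)) := by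
    ext z
    constructor
    · intro hz
      obtain ⟨θ, -, hzθ⟩ := th9_angle hz 0
      exact ⟨θ, hzθ.symm⟩
    · rintro ⟨θ, rfl⟩
      exact th5_cpt_norm c hρ θ
  rw [hset]
  exact isPreconnected_range (th1_aux_cont c ρ)

end H5CY
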