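import Pool.Agent.Lib.H5CY.A2

/-! # H5CY, file A3: the closed chain of an edge and a free arc; parity is constant on the rest of the circle and on
the other circle -/

set_option autoImplicit false

namespace H5CY

open Set H53P SimpleDraw

variable {n : ℕ} (D : SimpleDrawing n)

private theorem a3_mem {c : ℂ} {ρ α β : ℝ} {u v : Fin n} (ha : FreeArc D c ρ α β u v) :
    D.pt u ∈ arcS c ρ α β ∧ D.pt v ∈ arcS c ρ α β := by
  refine ⟨⟨α, ⟨le_rfl, ha.lt.le⟩, ?_⟩, ⟨β, ⟨ha.lt.le, le_rfl⟩, ?_⟩⟩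
  · rw [ha.hu]
    rfl
  · rw [ha.hv]
    rfl

/-- (A3, S) PROOF.  `tf2_cell`, `tf3_mem`, `th1_cell`; the ends: `hu`, `hv` and `cpt` unfolds to the parametrisation. -/
theorem cy_path {c : ℂ} {ρ α β : ℝ} (hρ : 0 < ρ) {u v : Fin n} (huv : u ≠ v)
    (ha : FreeArc D c ρ α β u v) : PathCh (D.pt u) (D.pt u) (jch D c ρ α β u v) := by
  have h1 := a3_mem D ha
  exact ⟨tf2_cell D huv, (tf3_mem D huv).1, (tf3_mem D huv).2, rfl,
    th1_cell c hρ (by linarith [ha.lt2]), h1.2, h1.1, rfl, rfl⟩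

/-- (A3b, S) PROOF.  `jch`, `csupp_cons`, `csupp_nil`. -/
theorem cy_supp (c : ℂ) (ρ α β : ℝ) (u v : Fin n) :
    csupp (jch D c ρ α β u v) = D.curve u v ∪ arcS c ρ α β := by
  unfold jch
  rw [csupp_cons, csupp_cons, csupp_nil, union_empty]

private theorem a3_par {l : Ch} {z z' : ℂ} (h : csum l z = csum l z') : par l z = par l z' := by
  unfold par
  rw [h]

/-- (A3c, S) The parity is constant on the rest of the circle.
PROOF.  `tc3_const` with the set of `cy_compl`, which is disjoint from the support: `hs` (the two points `D.pt u`,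
`D.pt v` are on the arc).  Equal `csum` gives equal `par` (unfold `par`, rewrite). -/
theorem cy_const1 {c : ℂ} {ρ α β : ℝ} (hρ : 0 < ρ) {u v : Fin n} (huv : u ≠ v)
    (ha : FreeArc D c ρ α β u v) (hs : ∀ p ∈ D.curve u v, ‖p - c‖ = ρ → p = D.pt u ∨ p = D.pt v)
    {z z' : ℂ} (hz : ‖z - c‖ = ρ) (hz1 : z ∉ arcS c ρ α β) (hz' : ‖z' - c‖ = ρ) (hz1' : z' ∉ arcS c ρ α β) :
    par (jch D c ρ α β u v) z = par (jch D c ρ α β u v) z' := by
  apply a3_par
  refine tc3_const (cy_path D hρ huv ha) (cy_compl hρ ha.lt ha.lt2) ?_ (z := z) (z' := z') ⟨hz, hz1⟩ ⟨hz', hz1'⟩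
  rw [cy_supp, Set.disjoint_left]
  rintro w ⟨hw1, hw2⟩ (hw3 | hw3)
  · rcases hs w hw3 hw1 with h | h
    · rw [h] at hw2
      exact hw2 (a3_mem D ha).1
    · rw [h] at hw2
      exact hw2 (a3_mem D ha).2
  · exact hw2 hw3

/-- (A3d, S) The parity is constant on the other circle.
PROOF.  `tc3_const` with the set of `cy_sphere`; points of `arcS c ρ α β` have norm `ρ` (`th1_aux_norm`). -/
theorem cy_const2 {c : ℂ} {ρ ρ' α β : ℝ} (hρ : 0 < ρ) (hρ' : 0 < ρ') (hne : ρ' ≠ ρ) {u v : Fin n} (huv : u ≠ v)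
    (ha : FreeArc D c ρ α β u v) (hs : ∀ p ∈ D.curve u v, ‖p - c‖ ≠ ρ')
    {z z' : ℂ} (hz : ‖z - c‖ = ρ') (hz' : ‖z' - c‖ = ρ') :
    par (jch D c ρ α β u v) z = par (jch D c ρ α β u v) z' := by
  apply a3_par
  refine tc3_const (cy_path D hρ huv ha) (cy_sphere (c := c) hρ') ?_ (z := z) (z' := z') hz hz'
  rw [cy_supp, Set.disjoint_left]
  rintro w hw1 (hw3 | hw3)
  · exact hs w hw3 hw1
  · have h1 := th1_aux_norm c hρ α β hw3
    have h2 : ‖w - c‖ = ρ' := hw1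
    exact hne (h2.symm.trans h1)

end H5CY
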