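import Pool.Agent.Lib.H5CY.A3

/-! # H5CY, file A4: parity law for an edge and the closed chain (helper51) -/

set_option autoImplicit false

namespace H5CY

open Set H53P SimpleDraw

variable {n : ℕ} (D : SimpleDrawing n)

private theorem a4_ends {c : ℂ} {ρ α β : ℝ} {u v : Fin n} (ha : FreeArc D c ρ α β u v) :
    D.pt u ∈ arcS c ρ α β ∧ D.pt v ∈ arcS c ρ α β := by
  refine ⟨⟨α, ⟨le_rfl, ha.lt.le⟩, ?_⟩, ⟨β, ⟨ha.lt.le, le_rfl⟩, ?_⟩⟩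
  · rw [ha.hu]
    rfl
  · rw [ha.hv]
    rfl

private theorem a4_jump {c : ℂ} {ρ α β : ℝ} (hρ : 0 < ρ) {u v : Fin n} (huv : u ≠ v) (ha : FreeArc D c ρ α β u v)
    {x y : Fin n} (hxy : x ≠ y) (hxu : x ≠ u) (hxv : x ≠ v) (hyu : y ≠ u) (hyv : y ≠ v)
    (hd : ∀ p ∈ D.curve x y, p ∉ arcS c ρ α β) {γ : ℝ → ℂ}
    (hγ : Par γ (D.curve x y) (D.pt x) (D.pt y)) {t : ℝ} (ht : t ∈ Icc (0 : ℝ) 1)
    (hc : γ t ∈ D.curve u v) :
    t ∈ Ioo (0 : ℝ) 1 ∧ ∃ δ > 0, ∀ s ∈ Ioo (t - δ) t, ∀ s' ∈ Ioo t (t + δ),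
      ∃ m : ℤ, csum (jch D c ρ α β u v) (γ s') - csum (jch D c ρ α β u v) (γ s) =
        (2 * m + 1) * (2 * Real.pi * Complex.I) := by
  obtain ⟨γ', hγ'⟩ := tf1_par D huv
  have hcx : γ t ∈ D.curve x y := by
    rw [← hγ.image]
    exact ⟨t, ht, rfl⟩
  obtain ⟨hpc, hnv⟩ := tf5_cross D hxy huv hxu hxv hyu hyv ⟨hcx, hc⟩
  obtain ⟨t', ht', htt'⟩ : ∃ t' ∈ Icc (0 : ℝ) 1, γ' t' = γ t := by
    rw [← hγ'.image] at hc
    exact hc
  have ht1 : t ∈ Ioo (0 : ℝ) 1 :=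
    ⟨lt_of_le_of_ne ht.1 (fun h0 => hnv x (by rw [← h0, hγ.zero])),
      lt_of_le_of_ne ht.2 (fun h1 => hnv y (by rw [h1, hγ.one]))⟩
  have ht1' : t' ∈ Ioo (0 : ℝ) 1 :=
    ⟨lt_of_le_of_ne ht'.1 (fun h0 => hnv u (by rw [← htt', ← h0, hγ'.zero])),
      lt_of_le_of_ne ht'.2 (fun h1 => hnv v (by rw [← htt', h1, hγ'.one]))⟩
  have h1 := a4_ends D ha
  have hl : PathCh (D.pt v) (D.pt u) [(arcS c ρ α β, D.pt v, D.pt u)] :=
    ⟨th1_cell c hρ (by linarith [ha.lt2]), h1.2, h1.1, rfl, rfl⟩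
  have hpl : γ t ∉ csupp [(arcS c ρ α β, D.pt v, D.pt u)] := by
    rw [csupp_cons, csupp_nil, union_empty]
    exact hd _ hcx
  exact ⟨ht1, te3_cross hγ hγ' hpc ht1 rfl ht1' htt' hl hpl⟩

/-- (A4, M) The parity law.
PROOF.  As `tf10_law` (file `Lib/H53P/TF10.lean`) with one edge instead of three.  `γ` parametrises `D.curve x y`
(`tf1_par`); `F` = the times on `D.curve u v` (`tf10_one`, `F.card = (X D x y u v).toNat`).  `te6_law` with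
`s₀ = 0`, `s₁ = 1`, chain `jch` (`cy_path`, `cy_supp`); `γ s ∉ arcS` by `hd`.  The jumps: as in the proof of
`tf9_jump` (file `Lib/H53P/TF9.lean`): `te3_cross` with `l = [(arcS c ρ α β, D.pt v, D.pt u)]`, which is a chain from
`D.pt v` to `D.pt u` (second part of `cy_path`). -/
theorem cy_par {c : ℂ} {ρ α β : ℝ} (hρ : 0 < ρ) {u v : Fin n} (huv : u ≠ v) (ha : FreeArc D c ρ α β u v)
    {x y : Fin n} (hxy : x ≠ y) (hxu : x ≠ u) (hxv : x ≠ v) (hyu : y ≠ u) (hyv : y ≠ v)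
    (hd : ∀ p ∈ D.curve x y, p ∉ arcS c ρ α β) :
    (par (jch D c ρ α β u v) (D.pt x) ^^ par (jch D c ρ α β u v) (D.pt y)) = X D x y u v := by
  classical
  obtain ⟨γ, hγ⟩ := tf1_par D hxy
  obtain ⟨F, h1, h2, h3⟩ := tf10_one D huv hxy hxu hxv hyu hyv hγ
  have jj : ∀ t ∈ F, t ∈ Ioo (0 : ℝ) 1 ∧ ∃ δ > 0, ∀ s ∈ Ioo (t - δ) t, ∀ s' ∈ Ioo t (t + δ),
      ∃ m : ℤ, csum (jch D c ρ α β u v) (γ s') - csum (jch D c ρ α β u v) (γ s) =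
        (2 * m + 1) * (2 * Real.pi * Complex.I) := fun t ht =>
    a4_jump D hρ huv ha hxy hxu hxv hyu hyv hd hγ (h2 t ht) ((h1 t (h2 t ht)).2 ht)
  have key := te6_law (cy_path D hρ huv ha) (γ := γ) (s₀ := 0) (s₁ := 1) one_pos hγ.cont
    F (fun t ht => (jj t ht).1) (by
      intro s hs
      have hs2 : γ s ∉ arcS c ρ α β := hd _ (by
        rw [← hγ.image]
        exact ⟨s, hs, rfl⟩)
      rw [cy_supp, mem_union, ← h1 s hs]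
      tauto) (fun t ht => (jj t ht).2)
  rw [hγ.zero, hγ.one, h3] at key
  rw [key]
  cases X D x y u v <;> decide

end H5CY
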