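import Pool.Agent.Lib.H5CY.A1
import Pool.Agent.Lib.H5CY.A4

/-! # H5CY, file A5: the edges crossing the edge between consecutive vertices of a circle -/

set_option autoImplicit false

namespace H5CY

open Set H53P SimpleDraw

variable {n : ℕ} (D : SimpleDrawing n)

/-- (A5, M) The law for consecutive vertices.
PROOF.  Let `ρ'` be the other radius; all `‖D.pt x - c‖ ∈ {ρ, ρ'}`, `ρ' ≠ ρ`, both positive.
(a) `uv` lies in a circle (of radius `ρ`, as it contains `D.pt u`): no edge `xy` crosses it, take `b = False`: a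
common point `p` is no vertex and a proper crossing (`tf5_cross`, for the edges `xy`, `uv`; unfold `X`), `p` is on the
circle, so the edge `xy` is not of the second kind, hence lies in a circle, of radius `ρ` because of `p`: `cy_overlap`.
(b) otherwise `uv` meets the circles only in `D.pt u`, `D.pt v`.  Put `l = jch D c ρ α β u v` and
`b : Prop := ∃ z z', ‖z - c‖ = ρ ∧ z ∉ arcS c ρ α β ∧ ‖z' - c‖ = ρ' ∧ par l z ≠ par l z'`.
Let `x, y ∉ {u, v}`.  If `x = y` both sides are false (`X` needs `x ≠ y`).  If `xy` lies in a circle then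
`κ x = κ y` and `X D x y u v = false`: a common point would be on a circle, so `D.pt u` or `D.pt v`, but it is no vertex
(`tf5_cross`).  Otherwise the edge `xy` meets the circles only in `D.pt x`, `D.pt y`, which are not on the arc
(`ha.free`), so `cy_par` applies.  If both are on the same circle, the parities agree (`cy_const1` resp. `cy_const2`
with `hs` from: points of `uv` on the circle `ρ'` would be `D.pt u` or `D.pt v`, which are on the circle `ρ`), and
`X = false`.  If they are on different circles, `X = true` iff the parities differ iff `b` (`cy_const1`, `cy_const2`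
compare with the `z, z'` of `b`). -/
theorem cy_law {c : ℂ} {r R : ℝ} (hD : CylWith D c r R) {κ : Fin n → Bool}
    (hκ : ∀ x, κ x = true ↔ ‖D.pt x - c‖ = r) {ρ α β : ℝ} (hρ : ρ = r ∨ ρ = R) {u v : Fin n} (huv : u ≠ v)
    (ha : FreeArc D c ρ α β u v) : Law (table D) κ u v := by
  classical
  obtain ⟨hr, hrR, hpt, hed⟩ := hD
  have hpos : 0 < ρ := by
    rcases hρ with h | h
    · rw [h]
      exact hr
    · rw [h]
      exact hr.trans hrR
  obtain ⟨ρ', hρ'0, hne, hcirc⟩ : ∃ ρ' : ℝ, 0 < ρ' ∧ ρ' ≠ ρ ∧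
      ∀ t : ℝ, (t = r ∨ t = R) ↔ (t = ρ ∨ t = ρ') := by
    rcases hρ with h | h
    · refine ⟨R, hr.trans hrR, by rw [h]; exact hrR.ne', fun t => by rw [h]⟩
    · refine ⟨r, hr, by rw [h]; exact hrR.ne, fun t => by rw [h]; exact or_comm⟩
  have hall : ∀ x, ‖D.pt x - c‖ = ρ ∨ ‖D.pt x - c‖ = ρ' := fun x => (hcirc _).1 (hpt x)
  have hκe : ∀ x y, ‖D.pt x - c‖ = ‖D.pt y - c‖ → κ x = κ y := by
    intro x y h
    rw [Bool.eq_iff_iff, hκ, hκ, h]
  have hκn : ∀ x y, ‖D.pt x - c‖ ≠ ‖D.pt y - c‖ → κ x ≠ κ y := by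
    intro x y h hk
    rw [Bool.eq_iff_iff, hκ, hκ] at hk
    rcases hpt x with hx | hx
    · exact h (hx.trans (hk.1 hx).symm)
    · rcases hpt y with hy | hy
      · exact h ((hk.2 hy).trans hy.symm)
      · exact h (hx.trans hy.symm)
  have nu : ‖D.pt u - c‖ = ρ := by
    rw [ha.hu]
    exact th5_cpt_norm c hpos α
  have nv : ‖D.pt v - c‖ = ρ := by
    rw [ha.hv]
    exact th5_cpt_norm c hpos β
  -- a crossing gives a common point, which is no vertex
  have hX : ∀ x y, x ≠ u → x ≠ v → y ≠ u → y ≠ v → X D x y u v = true →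
      x ≠ y ∧ ∃ p, p ∈ D.curve x y ∧ p ∈ D.curve u v ∧
        ProperCrossing (D.curve x y) (D.curve u v) p ∧ ∀ w, p ≠ D.pt w := by
    intro x y hxu hxv hyu hyv h
    unfold X at h
    simp only [decide_eq_true_eq] at h
    obtain ⟨hxy, -, -, -, -, -, p, hp⟩ := h
    obtain ⟨h1, h2⟩ := tf5_cross D hxy huv hxu hxv hyu hyv hp
    exact ⟨hxy, p, hp.1, hp.2, h1, h2⟩
  show ∃ b : Prop, ∀ x y, x ≠ u → x ≠ v → y ≠ u → y ≠ v → (X D x y u v = true ↔ (b ∧ κ x ≠ κ y))
  rcases hed u v huv with ⟨σ, hσ⟩ | hs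
  · -- the edge `uv` lies in a circle
    have hσρ : σ = ρ := (hσ _ (tf3_mem D huv).1).symm.trans nu
    refine ⟨False, fun x y hxu hxv hyu hyv => ⟨fun h => ?_, fun h => h.1.elim⟩⟩
    obtain ⟨hxy, p, hp1, hp2, hc, hnv⟩ := hX x y hxu hxv hyu hyv h
    have hpn : ‖p - c‖ = ρ := (hσ p hp2).trans hσρ
    rcases hed x y hxy with ⟨τ, hτ⟩ | h2
    · have hτρ : τ = ρ := (hτ p hp1).symm.trans hpn
      exact (cy_overlap hpos (fun z hz => (hτ z hz).trans hτρ) (fun z hz => (hσ z hz).trans hσρ) hc).elim
    · rcases h2 p hp1 ((hcirc _).2 (Or.inl hpn)) with h3 | h3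
      · exact (hnv x h3).elim
      · exact (hnv y h3).elim
  · have hs1 : ∀ p ∈ D.curve u v, ‖p - c‖ = ρ → p = D.pt u ∨ p = D.pt v :=
      fun p hp h => hs p hp ((hcirc _).2 (Or.inl h))
    have hs2 : ∀ p ∈ D.curve u v, ‖p - c‖ ≠ ρ' := by
      intro p hp h
      rcases hs p hp ((hcirc _).2 (Or.inr h)) with h1 | h1
      · rw [h1, nu] at h
        exact hne h.symm
      · rw [h1, nv] at h
        exact hne h.symm
    refine ⟨∃ z z', ‖z - c‖ = ρ ∧ z ∉ arcS c ρ α β ∧ ‖z' - c‖ = ρ' ∧
      par (jch D c ρ α β u v) z ≠ par (jch D c ρ α β u v) z', fun x y hxu hxv hyu hyv => ?_⟩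
    by_cases hxy : x = y
    · subst hxy
      constructor
      · intro h
        exact ((hX x x hxu hxv hyu hyv h).1 rfl).elim
      · intro h
        exact (h.2 rfl).elim
    rcases hed x y hxy with ⟨σ, hσ⟩ | h2
    · have hx := hσ _ (tf3_mem D hxy).1
      have hy := hσ _ (tf3_mem D hxy).2
      constructor
      · intro h
        obtain ⟨-, p, hp1, hp2, -, hnv⟩ := hX x y hxu hxv hyu hyv h
        have hpn : ‖p - c‖ = ‖D.pt x - c‖ := (hσ p hp1).trans hx.symm
        rcases hs p hp2 (by rw [hpn]; exact hpt x) with h3 | h3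
        · exact (hnv u h3).elim
        · exact (hnv v h3).elim
      · intro h
        exact (h.2 (hκe x y (hx.trans hy.symm))).elim
    · have hd : ∀ p ∈ D.curve x y, p ∉ arcS c ρ α β := by
        intro p hp hpa
        have hpn := th1_aux_norm c hpos α β hpa
        rcases h2 p hp ((hcirc _).2 (Or.inl hpn)) with h3 | h3
        · rw [h3] at hpa
          exact ha.free x hxu hxv hpa
        · rw [h3] at hpa
          exact ha.free y hyu hyv hpa
      have hpar := cy_par D hpos huv ha hxy hxu hxv hyu hyv hd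
      have hXp : X D x y u v = true ↔
          par (jch D c ρ α β u v) (D.pt x) ≠ par (jch D c ρ α β u v) (D.pt y) := by
        rw [← hpar]
        cases par (jch D c ρ α β u v) (D.pt x) <;> cases par (jch D c ρ α β u v) (D.pt y) <;> simp
      have hfx := ha.free x hxu hxv
      have hfy := ha.free y hyu hyv
      rcases hall x with hx | hx <;> rcases hall y with hy | hy
      · have h3 := cy_const1 D hpos huv ha hs1 hx hfx hy hfy
        constructor
        · intro h
          exact (hXp.1 h h3).elim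
        · intro h
          exact (h.2 (hκe x y (hx.trans hy.symm))).elim
      · have hk := hκn x y (by rw [hx, hy]; exact hne.symm)
        constructor
        · intro h
          exact ⟨⟨_, _, hx, hfx, hy, hXp.1 h⟩, hk⟩
        · rintro ⟨⟨z, z', hz, hz1, hz', hzz⟩, -⟩
          rw [hXp, cy_const1 D hpos huv ha hs1 hx hfx hz hz1,
            cy_const2 D hpos hρ'0 hne huv ha hs2 hy hz']
          exact hzz
      · have hk := hκn x y (by rw [hx, hy]; exact hne)
        constructor
        · intro h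
          exact ⟨⟨_, _, hy, hfy, hx, (hXp.1 h).symm⟩, hk⟩
        · rintro ⟨⟨z, z', hz, hz1, hz', hzz⟩, -⟩
          rw [hXp, cy_const1 D hpos huv ha hs1 hy hfy hz hz1,
            cy_const2 D hpos hρ'0 hne huv ha hs2 hx hz']
          exact hzz.symm
      · have h3 := cy_const2 D hpos hρ'0 hne huv ha hs2 hx hy
        constructor
        · intro h
          exact (hXp.1 h h3).elim
        · intro h
          exact (h.2 (hκe x y (hx.trans hy.symm))).elim

end H5CY
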