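import Pool.Agent.Lib.H5CY.Defs

/-! # H5CY, file B1: sorted lists of reals -/

set_option autoImplicit false

namespace H5CY

private theorem cy_sorted_aux (M : List ℝ) : ∀ L : List ℝ, L.Pairwise (· < ·) →
    (∀ r ∈ M, r ∈ L ∨ ∀ s ∈ L, r ≤ s) → L.IsChain (fun s t => s < t ∧ ∀ r ∈ M, r ≤ s ∨ t ≤ r)
  | [], _, _ => List.IsChain.nil
  | [a], _, _ => List.IsChain.singleton a
  | a :: b :: L, h, hM => by
    rw [List.isChain_cons_cons]
    have h1 := List.pairwise_cons.1 h
    have h2 := List.pairwise_cons.1 h1.2
    refine ⟨⟨h1.1 b List.mem_cons_self, fun r hr => ?_⟩, cy_sorted_aux M (b :: L) h1.2 fun r hr => ?_⟩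
    · rcases hM r hr with h3 | h3
      · rcases List.mem_cons.1 h3 with h4 | h4
        · exact Or.inl h4.le
        · rcases List.mem_cons.1 h4 with h5 | h5
          · exact Or.inr h5.ge
          · exact Or.inr (h2.1 r h5).le
      · exact Or.inl (h3 a List.mem_cons_self)
    · rcases hM r hr with h3 | h3
      · rcases List.mem_cons.1 h3 with h4 | h4
        · right
          intro s hs
          rw [h4]
          exact (h1.1 s hs).le
        · exact Or.inl h4
      · exact Or.inr fun s hs => h3 s (List.mem_cons_of_mem a hs)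

/-- (B1, S) In a strictly increasing list there is nothing between consecutive elements.
PROOF.  Induction on `L`: for `a :: b :: L'` the head pair: `a < b`, and every `r ∈ L` is `a`, or `≥ b`.  For the
tail use the induction hypothesis and `a <` everything (the new element `a` is `≤ s`):
`List.IsChain.imp_of_mem_imp` or do the induction with the stronger statement for a bigger list
`(∀ r ∈ M, r ∈ L ∨ ∀ s ∈ L, r ≤ s)`. -/
theorem cy_sorted (L : List ℝ) (h : L.Pairwise (· < ·)) :
    L.IsChain (fun s t => s < t ∧ ∀ r ∈ L, r ≤ s ∨ t ≤ r) := by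
  exact cy_sorted_aux L L h fun r hr => Or.inl hr

/-- (B1b, S) the first and the last element of a strictly increasing list are its minimum and its maximum -/
theorem cy_sorted_ends (L : List ℝ) (h : L.Pairwise (· < ·)) {a b : ℝ} (ha : L.head? = some a)
    (hb : L.getLast? = some b) : ∀ r ∈ L, a ≤ r ∧ r ≤ b := by
  intro r hr
  constructor
  · obtain ⟨L', rfl⟩ := List.head?_eq_some_iff.1 ha
    rcases List.mem_cons.1 hr with h1 | h1
    · exact h1.ge
    · exact ((List.pairwise_cons.1 h).1 r h1).le
  · obtain ⟨L', rfl⟩ := List.getLast?_eq_some_iff.1 hb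
    rcases List.mem_append.1 hr with h1 | h1
    · exact ((List.pairwise_append.1 h).2.2 r h1 b (List.mem_singleton.2 rfl)).le
    · exact (List.mem_singleton.1 h1).le

end H5CY
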