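import Pool.Agent.Lib.H5CY.B1

/-! # H5CY, file B2: the cyclic order of the vertices on a circle -/

set_option autoImplicit false

namespace H5CY

open Set H53P SimpleDraw

variable {n : ℕ} (D : SimpleDrawing n)

/-- (B2, S) PROOF.  `lt`, `lt2`: both angles are in `[0, 2π)`.  `free`: a point of the arc is `cpt c ρ θ'` with
`θ' ∈ [θ u, θ v] ⊆ [0, 2π)`; if it is `D.pt x`, it is on the circle (`th7_norm`), so it is `cpt c ρ (θ x)`, and
`θ x = θ'` (`th5_cpt_inj`, `|θ x - θ'| < 2π`); `hfree` gives `θ x = θ u` or `θ x = θ v`, so `D.pt x = D.pt u` or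
`D.pt v`, `x = u` or `x = v` (`D.pt_inj`). -/
theorem cy_free {c : ℂ} {ρ : ℝ} (hρ : 0 < ρ) {θ : Fin n → ℝ} (h0 : ∀ x, 0 ≤ θ x) (h1 : ∀ x, θ x < 2 * Real.pi)
    (hpt : ∀ x, ‖D.pt x - c‖ = ρ → D.pt x = cpt c ρ (θ x)) {u v : Fin n} (hu : ‖D.pt u - c‖ = ρ)
    (hv : ‖D.pt v - c‖ = ρ) (huv : θ u < θ v)
    (hfree : ∀ x, ‖D.pt x - c‖ = ρ → θ x ≤ θ u ∨ θ v ≤ θ x) : FreeArc D c ρ (θ u) (θ v) u v := by
  refine ⟨huv, by linarith [h0 u, h1 v], hpt u hu, hpt v hv, ?_⟩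
  rintro x hxu hxv ⟨θ', ⟨ha, hb⟩, hc⟩
  have hn : ‖D.pt x - c‖ = ρ := by
    rw [← hc]; exact th7_norm hρ θ'
  have he := hpt x hn
  have h3 : θ x = θ' := by
    apply th5_cpt_inj (c := c) hρ
    · rw [← he]; exact hc.symm
    · rw [abs_lt]; constructor <;> linarith [h0 x, h1 x, h0 u, h1 v]
  rcases hfree x hn with h4 | h4
  · have : θ x = θ u := by linarith
    apply hxu
    apply D.pt_inj
    rw [he, this]; exact (hpt u hu).symm
  · have : θ x = θ v := by linarith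
    apply hxv
    apply D.pt_inj
    rw [he, this]; exact (hpt v hv).symm

/-- (B2b, S) the arc from the last to the first vertex.
PROOF.  As `cy_free`; a point `cpt c ρ θ'`, `θ' ∈ [θ b, θ a + 2π]`, which is `D.pt x = cpt c ρ (θ x)`: if `θ' < 2π`
then `θ x = θ' ≥ θ b`, so `θ x = θ b`, `x = b`; otherwise `cpt c ρ θ' = cpt c ρ (θ' - 2π)` (`th1_aux_per`), so
`θ x = θ' - 2π ≤ θ a`, `x = a`. -/
theorem cy_free_wrap {c : ℂ} {ρ : ℝ} (hρ : 0 < ρ) {θ : Fin n → ℝ} (h0 : ∀ x, 0 ≤ θ x)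
    (h1 : ∀ x, θ x < 2 * Real.pi) (hpt : ∀ x, ‖D.pt x - c‖ = ρ → D.pt x = cpt c ρ (θ x)) {a b : Fin n}
    (ha : ‖D.pt a - c‖ = ρ) (hb : ‖D.pt b - c‖ = ρ) (hab : θ a < θ b)
    (hends : ∀ x, ‖D.pt x - c‖ = ρ → θ a ≤ θ x ∧ θ x ≤ θ b) : FreeArc D c ρ (θ b) (θ a + 2 * Real.pi) b a := by
  refine ⟨by linarith [h1 b, h0 a], by linarith, hpt b hb, by rw [th1_aux_per]; exact hpt a ha, ?_⟩
  rintro x hxb hxa ⟨θ', ⟨hc1, hc2⟩, hc⟩
  have hn : ‖D.pt x - c‖ = ρ := by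
    rw [← hc]; exact th7_norm hρ θ'
  have he := hpt x hn
  have hx := hends x hn
  by_cases hlt : θ' < 2 * Real.pi
  · have h3 : θ x = θ' := by
      apply th5_cpt_inj (c := c) hρ
      · rw [← he]; exact hc.symm
      · rw [abs_lt]; constructor <;> linarith [h0 x, h1 x, h0 b, h1 b]
    have : θ x = θ b := by linarith
    apply hxb
    apply D.pt_inj
    rw [he, this]; exact (hpt b hb).symm
  · have h3 : θ x = θ' - 2 * Real.pi := by
      apply th5_cpt_inj (c := c) hρ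
      · rw [← he, ← th1_aux_per, sub_add_cancel]; exact hc.symm
      · have hlt' := not_lt.1 hlt
        rw [abs_lt]; constructor <;> linarith [h0 x, h1 x, h0 a, h1 a]
    have : θ x = θ a := by linarith
    apply hxa
    apply D.pt_inj
    rw [he, this]; exact (hpt a ha).symm

end H5CY
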