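import Pool.Agent.Lib.H5CY.B2

/-! # H5CY, file B3: the list of the vertices on a circle -/

set_option autoImplicit false

namespace H5CY

open Set H53P SimpleDraw

variable {n : ℕ} (D : SimpleDrawing n)

/-- (B3, M) The cyclic list of the vertices on a circle.
PROOF.  Choose `θ x ∈ [0, 2π)` with `D.pt x = cpt c ρ (θ x)` if `‖D.pt x - c‖ = ρ` (`th9_angle` with `θ₀ = 0`; `θ x = 0`
otherwise).  `A` = the finset of the vertices on the circle; `θ` is injective on `A` (`D.pt_inj`).  `L` = the sorted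
list of `A.image θ` (`Finset.sort`, pairwise `<`: `Finset.sort_sorted_lt` or its present name
`Finset.sortedLT_sort`), `g : ℝ → Fin n` a left inverse of `θ` on `A` (`Function.invFunOn θ A`), `l = L.map g`.
The chain: `cy_sorted`, `List.isChain_map`, `cy_free` (elements of `L` are `θ x`, `x ∈ A`, and `g (θ x) = x`:
`List.IsChain.imp_of_mem_imp` or attach membership to the chain).  The ends: `cy_sorted_ends`, `cy_free_wrap`
(`a ≠ b` gives `θ a ≠ θ b`). -/
theorem cy_enum {c : ℂ} {ρ : ℝ} (hρ : 0 < ρ) : ∃ l : List (Fin n), l.Nodup ∧ (∀ x, x ∈ l ↔ ‖D.pt x - c‖ = ρ) ∧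
    l.IsChain (fun u v => ∃ α β, FreeArc D c ρ α β u v) ∧
    ∀ a b, l.head? = some a → l.getLast? = some b → a ≠ b → ∃ α β, FreeArc D c ρ α β b a := by
  classical
  have hex : ∀ x : Fin n, ∃ t : ℝ, 0 ≤ t ∧ t < 2 * Real.pi ∧ (‖D.pt x - c‖ = ρ → D.pt x = cpt c ρ t) := by
    intro x
    by_cases hx : ‖D.pt x - c‖ = ρ
    · obtain ⟨t, ht, h⟩ := th9_angle hx 0
      exact ⟨t, ht.1, by have := ht.2; rwa [zero_add] at this, fun _ => h⟩
    · exact ⟨0, le_refl _, Real.two_pi_pos, fun h => absurd h hx⟩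
  choose θ h0 h1 hpt using hex
  let A : Finset (Fin n) := Finset.univ.filter fun x => ‖D.pt x - c‖ = ρ
  let r : Fin n → Fin n → Prop := fun x y => θ x ≤ θ y
  have : Std.Total r := ⟨fun x y => le_total (θ x) (θ y)⟩
  have : IsTrans (Fin n) r := ⟨fun x y z hxy hyz => le_trans hxy hyz⟩
  let l : List (Fin n) := List.insertionSort r A.toList
  have hperm : l.Perm A.toList := List.perm_insertionSort r A.toList
  have hmem : ∀ x, x ∈ l ↔ ‖D.pt x - c‖ = ρ := by
    intro x
    rw [hperm.mem_iff, Finset.mem_toList, Finset.mem_filter]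
    simp
  have hnd : l.Nodup := hperm.nodup_iff.2 A.nodup_toList
  have hinj : ∀ x y : Fin n, x ∈ l → y ∈ l → θ x = θ y → x = y := by
    intro x y hx hy hxy
    apply D.pt_inj
    rw [hpt x ((hmem x).1 hx), hpt y ((hmem y).1 hy), hxy]
  have hlt : (l.map θ).Pairwise (· < ·) := by
    rw [List.pairwise_map]
    have hs : l.Pairwise r := List.pairwise_insertionSort r A.toList
    have hb : l.Pairwise fun x y => r x y ∧ x ≠ y := hs.and hnd
    refine hb.imp_of_mem ?_
    intro x y hx hy hxy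
    exact lt_of_le_of_ne hxy.1 fun h => hxy.2 (hinj x y hx hy h)
  refine ⟨l, hnd, hmem, ?_, ?_⟩
  · have hc := cy_sorted _ hlt
    rw [List.isChain_map] at hc
    refine List.IsChain.imp_of_mem_imp ?_ hc
    intro u v hu hv huv
    refine ⟨θ u, θ v, cy_free D hρ h0 h1 hpt ((hmem u).1 hu) ((hmem v).1 hv) huv.1 ?_⟩
    intro x hx
    exact huv.2 (θ x) (List.mem_map.2 ⟨x, (hmem x).2 hx, rfl⟩)
  · intro a b ha hb hab
    have ha' : a ∈ l := List.mem_of_mem_head? ha
    have hb' : b ∈ l := List.mem_of_getLast? hb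
    have he := cy_sorted_ends (l.map θ) hlt (a := θ a) (b := θ b) (by rw [List.head?_map, ha]; rfl)
      (by rw [List.getLast?_map, hb]; rfl)
    have hends : ∀ x, ‖D.pt x - c‖ = ρ → θ a ≤ θ x ∧ θ x ≤ θ b := fun x hx =>
      he (θ x) (List.mem_map.2 ⟨x, (hmem x).2 hx, rfl⟩)
    have hlt' : θ a < θ b :=
      lt_of_le_of_ne (hends a ((hmem a).1 ha')).2 fun h => hab (hinj a b ha' hb' h)
    exact ⟨θ b, θ a + 2 * Real.pi, cy_free_wrap D hρ h0 h1 hpt ((hmem a).1 ha') ((hmem b).1 hb') hlt' hends⟩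

end H5CY
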