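import Pool.Agent.Lib.H5CY.Defs
import Pool.Agent.Lib.H98S.K5

/-! # H5CY, file C1: two bad pairs on the same circle -/

set_option autoImplicit false

namespace H5CY

open H53P

variable {V : Type*} {T : Table V}

/-- (C1, S) PROOF.  `T.one` with the symmetries `T.symm1`, `T.symm2`: `{w, y, u, v}` would have two crossings. -/
theorem cy_k4 {u v w y : V} (h1 : T.X w y u v = true) (h2 : T.X u y v w = true) : False := by
  have a1 := T.one u y v w h2
  rw [T.xs4 w y u v, T.xs2 u v w y] at h1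
  rw [h1] at a1
  exact Bool.noConfusion a1

/-- (C1b, S/M) PROOF.  `T.sep` with the triangle `v u' v'` (`a = v`, `b = u'`, `c = v'`), `x = u`, `x' = v`,
`y = y`, `y' = u'`.  Distinctness of the five points: `T.ne` of `h1, …, h4`.  `T.X u v v u' = false` etc. (a common
vertex): `T.ne`.  `T.X u v u' v' = false`: `h5`.  `T.X y u' v' v = false`: by `T.one` from `h4` (the four points
`v, y, u', v'`), `crTX T.X v u' v' u y = true`: `T.X u y v u' = false` by `T.one` from `h1`, `T.X u y u' v' = true` is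
`h3`, `T.X u y v' v = false` by `T.one` from `h2`.  So `T.X u v y u' = false`, against `h1` (symmetries). -/
theorem cy_k5 {u v u' v' y : V} (h1 : T.X u' y u v = true) (h2 : T.X v' y u v = true)
    (h3 : T.X u y u' v' = true) (h4 : T.X v y u' v' = true) (h5 : T.X u v u' v' = false) : False := by
  obtain ⟨n1, n2, n3, n4, n5, n6⟩ := T.ne _ _ _ _ h1
  obtain ⟨m1, m2, m3, m4, m5, m6⟩ := T.ne _ _ _ _ h2
  obtain ⟨p1, p2, p3, p4, p5, p6⟩ := T.ne _ _ _ _ h3
  have f1 : T.X u v v u' = false := by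
    cases h : T.X u v v u' with
    | false => rfl
    | true => exact absurd rfl (T.ne _ _ _ _ h).2.2.2.2.1
  have f2 : T.X u v v' v = false := by
    cases h : T.X u v v' v with
    | false => rfl
    | true => exact absurd rfl (T.ne _ _ _ _ h).2.2.2.2.2
  have f3 : T.X y u' v u' = false := by
    cases h : T.X y u' v u' with
    | false => rfl
    | true => exact absurd rfl (T.ne _ _ _ _ h).2.2.2.2.2
  have f4 : T.X y u' u' v' = false := by
    cases h : T.X y u' u' v' with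
    | false => rfl
    | true => exact absurd rfl (T.ne _ _ _ _ h).2.2.2.2.1
  have f5 : T.X y u' v' v = false := by
    have h4' : T.X v y v' u' = true := by rw [← T.xs2 v y u' v']; exact h4
    have := T.one v y v' u' h4'
    rw [T.xs6 v v' y u'] at this
    rw [T.xs2 y u' v' v]
    rw [T.xs2 y u' v' v] at this
    exact this
  have g1 : T.X u y v u' = false := by
    have h1' : T.X y u' u v = true := by rw [← T.xs1 u' y u v]; exact h1
    have := T.one y u' u v h1'
    rw [T.xs3 u y v u']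
    exact this
  have g2 : T.X u y v' v = false := by
    have h2' : T.X y v' u v = true := by rw [← T.xs1 v' y u v]; exact h2
    have := T.one y v' u v h2'
    rw [T.xs1 u y v' v]
    exact this
  have key := T.sep v u' v' n4.symm p2 m4 u y v u' m2 p3 p4 n6 p5 p6 f1 h5 f2 f3 f4 f5
    (by show ((T.X u y v u' ^^ T.X u y u' v') ^^ T.X u y v' v) = true; rw [g1, g2, h3]; rfl)
  rw [T.xs4 u v y u', T.xs1 y u' u v, h1] at key
  exact Bool.noConfusion key

/-- (C1c, S) adjacent bad pairs.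
PROOF.  `Bad T u v` gives `x, z` with `T.X x z u v = true`; `x, z ∉ {u, v}` (`T.ne`), so the `b` of `huv` holds
(`huv` obtained as `⟨b, hb⟩`, `hb x z`), and `T.X w y u v = true` by `hb w y`.  In the same way `T.X u y v w = true`.
`cy_k4`. -/
theorem cy_adj {κ : V → Bool} {u v w y : V} (huv : Law T κ u v) (hvw : Law T κ v w) (h1 : u ≠ v) (h2 : v ≠ w)
    (h3 : u ≠ w) (k1 : κ u = κ v) (k2 : κ w = κ v) (k3 : κ y ≠ κ v) (b1 : Bad T u v) (b2 : Bad T v w) : False := by
  obtain ⟨b, hb⟩ := huv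
  obtain ⟨b', hb'⟩ := hvw
  obtain ⟨x, z, hx⟩ := b1
  obtain ⟨x', z', hx'⟩ := b2
  obtain ⟨n1, n2, n3, n4, n5, n6⟩ := T.ne _ _ _ _ hx
  obtain ⟨m1, m2, m3, m4, m5, m6⟩ := T.ne _ _ _ _ hx'
  have hbt : b := ((hb x z n3 n4 n5 n6).1 hx).1
  have hbt' : b' := ((hb' x' z' m3 m4 m5 m6).1 hx').1
  have yu : y ≠ u := fun h => k3 (by rw [h, k1])
  have yv : y ≠ v := fun h => k3 (by rw [h])
  have yw : y ≠ w := fun h => k3 (by rw [h, k2])
  have e1 : T.X w y u v = true :=
    (hb w y h3.symm h2.symm yu yv).2 ⟨hbt, fun h => k3 (by rw [← h, k2])⟩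
  have e2 : T.X u y v w = true :=
    (hb' u y h1 h3 yv yw).2 ⟨hbt', fun h => k3 (by rw [← h, k1])⟩
  exact cy_k4 e1 e2

/-- (C1d, S) disjoint bad pairs.  PROOF.  As `cy_adj`, with `cy_k5`; `h5`: `T.X u v u' v' = false` from the second law
(`κ u = κ v`). -/
theorem cy_dis {κ : V → Bool} {u v u' v' y : V} (huv : Law T κ u v) (huv' : Law T κ u' v') (h1 : u ≠ u')
    (h2 : u ≠ v') (h3 : v ≠ u') (h4 : v ≠ v') (k1 : κ u = κ v) (k2 : κ u' = κ v) (k3 : κ v' = κ v)
    (k4 : κ y ≠ κ v) (b1 : Bad T u v) (b2 : Bad T u' v') : False := by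
  obtain ⟨b, hb⟩ := huv
  obtain ⟨b', hb'⟩ := huv'
  obtain ⟨x, z, hx⟩ := b1
  obtain ⟨x', z', hx'⟩ := b2
  obtain ⟨n1, n2, n3, n4, n5, n6⟩ := T.ne _ _ _ _ hx
  obtain ⟨m1, m2, m3, m4, m5, m6⟩ := T.ne _ _ _ _ hx'
  have hbt : b := ((hb x z n3 n4 n5 n6).1 hx).1
  have hbt' : b' := ((hb' x' z' m3 m4 m5 m6).1 hx').1
  have yu : y ≠ u := fun h => k4 (by rw [h, k1])
  have yv : y ≠ v := fun h => k4 (by rw [h])
  have yu' : y ≠ u' := fun h => k4 (by rw [h, k2])
  have yv' : y ≠ v' := fun h => k4 (by rw [h, k3])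
  have e1 : T.X u' y u v = true :=
    (hb u' y h1.symm h3.symm yu yv).2 ⟨hbt, fun h => k4 (by rw [← h, k2])⟩
  have e2 : T.X v' y u v = true :=
    (hb v' y h2.symm h4.symm yu yv).2 ⟨hbt, fun h => k4 (by rw [← h, k3])⟩
  have e3 : T.X u y u' v' = true :=
    (hb' u y h1 h2 yu' yv').2 ⟨hbt', fun h => k4 (by rw [← h, k1])⟩
  have e4 : T.X v y u' v' = true :=
    (hb' v y h3 h4 yu' yv').2 ⟨hbt', fun h => k4 (by rw [← h])⟩
  have e5 : T.X u v u' v' = false := by
    cases h : T.X u v u' v' with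
    | false => rfl
    | true => exact absurd k1 ((hb' u v h1 h2 h3 h4).1 h).2
  exact cy_k5 e1 e2 e3 e4 e5

/-- (C1e, S) if `u`, `v` are the only vertices on their side, no edge crosses `uv`.
PROOF.  If `T.X x z u v = true`, then `x, z ∉ {u, v}` and the law gives `κ x ≠ κ z`, so one of them equals `κ u` in
`Bool` and is `u` or `v` by `h`. -/
theorem cy_two {κ : V → Bool} {u v : V} (huv : Law T κ u v) (h : ∀ x, κ x = κ u → x = u ∨ x = v) :
    ¬ Bad T u v := by
  obtain ⟨b, hb⟩ := huv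
  rintro ⟨x, z, hx⟩
  obtain ⟨n1, n2, n3, n4, n5, n6⟩ := T.ne _ _ _ _ hx
  have hk := ((hb x z n3 n4 n5 n6).1 hx).2
  have hxu : κ x ≠ κ u := fun e => (h x e).elim n3 n4
  have hzu : κ z ≠ κ u := fun e => (h z e).elim n5 n6
  cases h1 : κ x <;> cases h2 : κ z <;> cases h3 : κ u <;> simp_all

end H5CY
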