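import Pool.Agent.Lib.H5CY.C1

/-! # H5CY, file C2: a path of uncrossed edges on each circle -/

set_option autoImplicit false

namespace H5CY

open H53P

variable {V : Type*} {T : Table V}

private theorem c2_split {α : Type*} {R : α → α → Prop} : ∀ l : List α, ¬ l.IsChain R →
    ∃ l₁ u v l₂, l = l₁ ++ u :: v :: l₂ ∧ ¬ R u v
  | [], h => absurd List.isChain_nil h
  | [a], h => absurd (List.isChain_singleton a) h
  | a :: b :: l, h => by
    by_cases hR : R a b
    · have h' : ¬ (b :: l).IsChain R := fun h' => h (List.isChain_cons_cons.2 ⟨hR, h'⟩)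
      obtain ⟨l₁, u, v, l₂, e, hn⟩ := c2_split (b :: l) h'
      exact ⟨a :: l₁, u, v, l₂, by rw [e]; rfl, hn⟩
    · exact ⟨[], a, b, l, rfl, hR⟩

private theorem c2_ne {α : Type*} {R : α → α → Prop} : ∀ l : List α, l.Nodup → l.IsChain R →
    l.IsChain (fun a b => a ≠ b ∧ R a b)
  | [], _, _ => List.isChain_nil
  | [a], _, _ => List.isChain_singleton a
  | a :: b :: l, hn, h => by
    have h' := List.isChain_cons_cons.1 h
    refine List.isChain_cons_cons.2 ⟨⟨?_, h'.1⟩, c2_ne (b :: l) (List.nodup_cons.1 hn).2 h'.2⟩
    rintro rfl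
    exact (List.nodup_cons.1 hn).1 (by simp)

/-- (C2, M) Cut the cyclic list at the bad pair.
PROOF.  `Good T u v ↔ ¬ Bad T u v`.  If `l` is a chain for `Good`, take `l' = l`.  Otherwise there are `l₁, u, v, l₂`
with `l = l₁ ++ u :: v :: l₂` and `Bad T u v` (a list which is not a chain for `Good` has a bad consecutive pair:
`List.isChain_iff_forall_getElem`-type lemmas or a short induction, give it as a private lemma).  Take
`l' = (v :: l₂) ++ (l₁ ++ [u])` (`List.perm_append_comm`).  `List.isChain_append`: three parts.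
Pairs `(s, t)` of `v :: l₂`: `t ≠ u, v`; if `s = v`: `cy_adj` (`u, v, t`); otherwise `cy_dis`.
Pairs `(s, t)` of `l₁ ++ [u]`: `s ≠ u, v`; if `t = u`: `cy_adj` (`s, u, v`); otherwise `cy_dis`.
The junction `(b, a)`, `b` the last element of `l`, `a` the first one: `a ≠ b`; if `a = u` and `b = v` then
`l = [u, v]` and `cy_two`; if `b = v`, `a ≠ u`: `cy_adj` (`u, v, a`); if `a = u`, `b ≠ v`: `cy_adj` (`b, u, v`);
otherwise `cy_dis`.  All elements of `l` have `κ = k0`, and `κ y ≠ k0`. -/
theorem cy_rotate {κ : V → Bool} {k0 : Bool} {l : List V} (hnd : l.Nodup) (hκ : ∀ x, x ∈ l ↔ κ x = k0) {y : V}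
    (hy : κ y ≠ k0) (h1 : l.IsChain (Law T κ))
    (h2 : ∀ a b, l.head? = some a → l.getLast? = some b → a ≠ b → Law T κ b a) :
    ∃ l' : List V, l'.Perm l ∧ l'.IsChain (Good T) := by
  by_cases hc : l.IsChain (Good T)
  · exact ⟨l, List.Perm.refl l, hc⟩
  obtain ⟨l₁, u, v, l₂, rfl, hbad⟩ := c2_split l hc
  have hbuv : Bad T u v := by
    unfold Good at hbad
    push Not at hbad
    obtain ⟨x, z, hxz⟩ := hbad
    exact ⟨x, z, by simpa using hxz⟩
  have hchain := List.isChain_append.1 h1
  have hluv : Law T κ u v := (List.isChain_cons_cons.1 hchain.2.1).1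
  have hcv : (v :: l₂).IsChain (Law T κ) := (List.isChain_cons_cons.1 hchain.2.1).2
  have hcu : (l₁ ++ [u]).IsChain (Law T κ) := by
    have : l₁ ++ u :: v :: l₂ = (l₁ ++ [u]) ++ (v :: l₂) := by simp
    rw [this] at h1
    exact h1.left_of_append
  have hku : κ u = k0 := (hκ u).1 (by simp)
  have hkv : κ v = k0 := (hκ v).1 (by simp)
  have hk1 : ∀ x ∈ l₁, κ x = k0 := fun x hx => (hκ x).1 (by simp [hx])
  have hk2 : ∀ x ∈ l₂, κ x = k0 := fun x hx => (hκ x).1 (by simp [hx])
  have hnd' := List.nodup_append.1 hnd
  have hnd2 := hnd'.2.1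
  have huv : u ≠ v := by
    intro h
    have := (List.nodup_cons.1 hnd2).1
    apply this
    simp [h]
  have hu2 : u ∉ l₂ := fun h => (List.nodup_cons.1 hnd2).1 (by simp [h])
  have hv2 : v ∉ l₂ := (List.nodup_cons.1 (List.nodup_cons.1 hnd2).2).1
  have hu1 : u ∉ l₁ := fun h => hnd'.2.2 u h u (by simp) rfl
  have hv1 : v ∉ l₁ := fun h => hnd'.2.2 v h v (by simp) rfl
  have key : ∀ s t, κ s = k0 → κ t = k0 → s ≠ t → s ≠ u → t ≠ v → ¬ (s = v ∧ t = u) →
      Law T κ s t → Good T s t := by
    intro s t hs ht hst hsu htv hn hL x z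
    by_contra hX
    have hb : Bad T s t := ⟨x, z, by simpa using hX⟩
    by_cases hsv : s = v
    · subst hsv
      have htu : t ≠ u := fun h => hn ⟨rfl, h⟩
      exact cy_adj (y := y) hluv hL huv hst (Ne.symm htu) (hku.trans hkv.symm) (ht.trans hkv.symm)
        (by rw [hkv]; exact hy) hbuv hb
    · by_cases htu : t = u
      · subst htu
        exact cy_adj (y := y) hL hluv hst huv hsv (hs.trans hku.symm) (hkv.trans hku.symm)
          (by rw [hku]; exact hy) hb hbuv
      · exact cy_dis (y := y) hluv hL (Ne.symm hsu) (Ne.symm htu) (Ne.symm hsv) (Ne.symm htv)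
          (hku.trans hkv.symm) (hs.trans hkv.symm) (ht.trans hkv.symm) (by rw [hkv]; exact hy) hbuv hb
  refine ⟨(v :: l₂) ++ (l₁ ++ [u]), ?_, ?_⟩
  · have e : l₁ ++ u :: v :: l₂ = (l₁ ++ [u]) ++ (v :: l₂) := by simp
    rw [e]
    exact List.perm_append_comm
  · have hnd3 : (v :: l₂).Nodup := (List.nodup_cons.1 hnd2).2
    refine List.isChain_append.2 ⟨?_, List.isChain_append.2 ⟨?_, List.isChain_singleton u, ?_⟩, ?_⟩
    · refine (c2_ne _ hnd3 hcv).imp_of_mem_tail_imp fun a b ha hb hab => ?_
      have hb' : b ∈ l₂ := hb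
      have hau : a ≠ u := by
        rintro rfl
        rcases List.mem_cons.1 ha with h | h
        · exact huv h
        · exact hu2 h
      have hka : κ a = k0 := by
        rcases List.mem_cons.1 ha with h | h
        · rw [h]; exact hkv
        · exact hk2 a h
      exact key a b hka (hk2 b hb') hab.1 hau (fun h => hv2 (h ▸ hb')) (fun h => hu2 (h.2 ▸ hb')) hab.2
    · refine (c2_ne _ hnd'.1 hchain.1).imp_of_mem_imp fun a b ha hb hab => ?_
      exact key a b (hk1 a ha) (hk1 b hb) hab.1 (fun h => hu1 (h ▸ ha)) (fun h => hv1 (h ▸ hb))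
        (fun h => hv1 (h.1 ▸ ha)) hab.2
    · intro a ha b hb
      have hb' : b = u := by
        have : some u = some b := hb
        exact (Option.some.inj this).symm
      subst hb'
      have ha' : a ∈ l₁ := List.mem_of_getLast? ha
      have hL : Law T κ a b := (List.isChain_append.1 hcu).2.2 a ha b (by simp)
      exact key a b (hk1 a ha') hku (fun h => hu1 (h ▸ ha')) (fun h => hu1 (h ▸ ha')) huv
        (fun h => hv1 (h.1 ▸ ha')) hL
    · intro b hb a ha
      have hb1 : b ∈ v :: l₂ := List.mem_of_getLast? hb
      have ha1 : a ∈ l₁ ++ [u] := List.mem_of_mem_head? ha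
      have hbu : b ≠ u := by
        rintro rfl
        rcases List.mem_cons.1 hb1 with h | h
        · exact huv h
        · exact hu2 h
      have hav : a ≠ v := by
        rintro rfl
        rcases List.mem_append.1 ha1 with h | h
        · exact hv1 h
        · exact huv (List.mem_singleton.1 h).symm
      have hab : a ≠ b := by
        rintro rfl
        rcases List.mem_append.1 ha1 with h | h
        · exact hnd'.2.2 a h a (by simp only [List.mem_cons]; right; exact List.mem_cons.1 hb1) rfl
        · exact hbu (List.mem_singleton.1 h)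
      have hkb : κ b = k0 := by
        rcases List.mem_cons.1 hb1 with h | h
        · rw [h]; exact hkv
        · exact hk2 b h
      have hka : κ a = k0 := by
        rcases List.mem_append.1 ha1 with h | h
        · exact hk1 a h
        · rw [List.mem_singleton.1 h]; exact hku
      have e1 : (l₁ ++ u :: v :: l₂).head? = some a := by
        have h : (l₁ ++ [u]).head? = some a := ha
        cases l₁ with
        | nil => simpa using h
        | cons c l => simpa using h
      have e2 : (l₁ ++ u :: v :: l₂).getLast? = some b := by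
        have h : (v :: l₂).getLast? = some b := hb
        rw [List.getLast?_append, List.getLast?_cons_cons, h]
        rfl
      refine key b a hkb hka hab.symm hbu hav ?_ (h2 a b e1 e2 hab)
      rintro ⟨rfl, rfl⟩
      have hl1 : l₁ = [] := by
        cases l₁ with
        | nil => rfl
        | cons c l =>
          exfalso
          have h : some c = some a := ha
          apply hu1
          rw [← Option.some.inj h]
          simp
      have hl2 : l₂ = [] := by
        cases l₂ with
        | nil => rfl
        | cons c l =>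
          exfalso
          have h : (b :: c :: l).getLast? = some b := hb
          rw [List.getLast?_cons_cons] at h
          exact hv2 (List.mem_of_getLast? h)
      subst hl1 hl2
      refine cy_two hluv (fun x hx => ?_) hbuv
      have := (hκ x).2 (hx.trans hku)
      simpa using this

end H5CY
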