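import Pool.Agent.Lib.H53P.TZ

/-! # H5CY: cylindrical drawings, definitions

All vertices lie on two concentric circles; an edge meets the two circles only in its ends or lies
in one of them. -/

set_option autoImplicit false

namespace H5CY

open Set H53P SimpleDraw

variable {n : ℕ}

/-- cylindrical with the centre `c` and the radii `r < R` -/
def CylWith (D : SimpleDrawing n) (c : ℂ) (r R : ℝ) : Prop :=
  0 < r ∧ r < R ∧ (∀ i, ‖D.pt i - c‖ = r ∨ ‖D.pt i - c‖ = R) ∧
    ∀ i j, i ≠ j → (∃ ρ : ℝ, ∀ p ∈ D.curve i j, ‖p - c‖ = ρ) ∨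
      ∀ p ∈ D.curve i j, (‖p - c‖ = r ∨ ‖p - c‖ = R) → p = D.pt i ∨ p = D.pt j

/-- the arc of the circle `|z - c| = ρ` between the angles `α < β < α + 2π` joins `u` to `v` and
contains no other vertex -/
structure FreeArc (D : SimpleDrawing n) (c : ℂ) (ρ α β : ℝ) (u v : Fin n) : Prop where
  lt : α < β
  lt2 : β < α + 2 * Real.pi
  hu : D.pt u = cpt c ρ α
  hv : D.pt v = cpt c ρ β
  free : ∀ x, x ≠ u → x ≠ v → D.pt x ∉ arcS c ρ α β

/-- the closed chain: the edge `uv` and the arc between the angles `α` and `β` -/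
noncomputable def jch (D : SimpleDrawing n) (c : ℂ) (ρ α β : ℝ) (u v : Fin n) : Ch :=
  [(D.curve u v, D.pt u, D.pt v), (arcS c ρ α β, D.pt v, D.pt u)]

/-- the edges which cross `uv` are either all edges between the two sides or none -/
def Law {V : Type*} (T : Table V) (κ : V → Bool) (u v : V) : Prop :=
  ∃ b : Prop, ∀ x y, x ≠ u → x ≠ v → y ≠ u → y ≠ v → (T.X x y u v = true ↔ (b ∧ κ x ≠ κ y))

/-- some edge crosses `uv` -/
def Bad {V : Type*} (T : Table V) (u v : V) : Prop := ∃ x y, T.X x y u v = true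

/-- no edge crosses `uv` -/
def Good {V : Type*} (T : Table V) (u v : V) : Prop := ∀ x y, T.X x y u v = false

/-- the graph `G` together with two polygonal paths -/
def gu (G : SimpleGraph (Fin n)) (P Q : List (Fin n)) : SimpleGraph (Fin n) :=
  SimpleGraph.fromRel fun i j => G.Adj i j ∨ (i, j) ∈ edges P ∨ (i, j) ∈ edges Q

/-- a plane spanning tree of the complete bipartite graph with the sides `A`, `B` (the same as `H24F.PT`) -/
def PT (D : SimpleDrawing n) (A B : Finset (Fin n)) (G : SimpleGraph (Fin n)) : Prop :=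
  D.Plane G ∧ (∀ u v, G.Adj u v → (u ∈ A ∧ v ∈ B) ∨ (u ∈ B ∧ v ∈ A)) ∧
    (G.induce {v | v ∈ A ∨ v ∈ B}).IsTree

end H5CY
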