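import Pool.Agent.Lib.H5CY.Defs
import Pool.Agent.Lib.H24F.F2
import Pool.Agent.Lib.H98W.FIN

/-! # H5CY, file E1: a plane bipartite spanning tree with prescribed edges between the ends of two paths -/

set_option autoImplicit false

namespace H5CY

open Finset H53P SimpleDraw

variable {n : ℕ} (D : SimpleDrawing n)

/-- (E1, S) neighbours in a plane tree when one side is a single vertex.
PROOF.  `T := (G.induce {v | v ∈ A ∨ v ∈ B})` is connected with at least two vertices `a`, `b`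
(`hG.2.2.1 : Connected`), so `b` has a neighbour (`SimpleGraph.Connected.preconnected.exists_adj_of_nontrivial`-type
lemma, or take a walk from `b` to `a`, its first edge), which is in `A` (`hG.2.1`, `Disjoint A B`), so it is `a`. -/
theorem cy_star {A B : Finset (Fin n)} (hAB : Disjoint A B) {G : SimpleGraph (Fin n)} (hG : H24F.PT D A B G)
    {a b : Fin n} (hA : A = {a}) (hb : b ∈ B) : G.Adj a b := by
  classical
  have haA : a ∈ A := by rw [hA]; exact mem_singleton_self a
  have hab : b ≠ a := fun h => disjoint_left.1 hAB haA (h ▸ hb)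
  obtain ⟨p⟩ := hG.2.2.1.preconnected ⟨b, Or.inr hb⟩ ⟨a, Or.inl haA⟩
  cases p with
  | nil => exact absurd rfl hab
  | @cons _ v _ h _ =>
    obtain ⟨u, hu⟩ := v
    have h1 : G.Adj b u := h
    rcases hG.2.1 _ _ h1 with ⟨h2, -⟩ | ⟨-, h2⟩
    · exact absurd hb (disjoint_left.1 hAB h2)
    · have h3 : u = a := by
        rw [hA] at h2
        exact mem_singleton.1 h2
      rw [h3] at h1
      exact h1.symm

/-- (E1b, S) existence of a plane tree.  PROOF.  `H24F.transport_drawing` with `H98W.hz_table (H53P.table D)` and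
`x v = 1 / |A|` on `A`, `1 / |B|` on `B` (or `H24F.degree_drawing` with `d = 1` except at one vertex of `A`, where
`d = |B|`). -/
theorem cy_tree {A B : Finset (Fin n)} (hAB : Disjoint A B) (hA : A.Nonempty) (hB : B.Nonempty) :
    ∃ G : SimpleGraph (Fin n), H24F.PT D A B G := by
  classical
  have hZ := H98W.hz_table (H53P.table D)
  have hA0 : (0 : ℝ) < A.card := by exact_mod_cast hA.card_pos
  have hB0 : (0 : ℝ) < B.card := by exact_mod_cast hB.card_pos
  have hx : ∀ v ∈ A ∪ B, (0 : ℝ) < if v ∈ A then 1 / (A.card : ℝ) else 1 / (B.card : ℝ) := by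
    intro v _
    split_ifs <;> positivity
  have h1 : ∑ a ∈ A, (if a ∈ A then 1 / (A.card : ℝ) else 1 / (B.card : ℝ)) = 1 := by
    rw [sum_congr rfl (g := fun _ => 1 / (A.card : ℝ)) fun a ha => if_pos ha, sum_const, nsmul_eq_mul]
    field_simp
  have h2 : ∑ b ∈ B, (if b ∈ A then 1 / (A.card : ℝ) else 1 / (B.card : ℝ)) = 1 := by
    rw [sum_congr rfl (g := fun _ => 1 / (B.card : ℝ)) fun b hb => if_neg (disjoint_right.1 hAB hb), sum_const,
      nsmul_eq_mul]
    field_simp
  obtain ⟨G, hG, -⟩ := H24F.transport_drawing D hZ hAB hA hB hx (h1.trans h2.symm)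
  exact ⟨G, hG⟩

private theorem sum_side {A : Finset (Fin n)} {a a' : Fin n} (ha : a ∈ A) (ha' : a' ∈ A) (haa : a ≠ a')
    {f : Fin n → ℝ} {c : ℝ} (hf : ∀ y ∈ A, y ≠ a → y ≠ a' → f y = c) :
    ∑ y ∈ A, f y = f a + (f a' + ((A.card : ℝ) - 2) * c) := by
  classical
  have h1 : a' ∈ A.erase a := mem_erase.2 ⟨haa.symm, ha'⟩
  rw [← add_sum_erase A f ha, ← add_sum_erase (A.erase a) f h1, sum_congr rfl (g := fun _ => c)
    (fun y hy => hf y (mem_of_mem_erase (mem_of_mem_erase hy)) (ne_of_mem_erase (mem_of_mem_erase hy))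
      (ne_of_mem_erase hy)), sum_const, nsmul_eq_mul, card_erase_of_mem h1, card_erase_of_mem ha]
  have h2 : 2 ≤ A.card := by
    have : ({a, a'} : Finset (Fin n)).card ≤ A.card := card_le_card (by
      intro y hy
      rcases mem_insert.1 hy with h | h
      · exact h ▸ ha
      · rw [mem_singleton.1 h]; exact ha')
    rwa [card_pair haa] at this
  rw [Nat.sub_sub, Nat.cast_sub h2]
  norm_num

/-- If a nonnegative row `g` with sum `6 + …` misses one of the two large entries, the other entries are not enough. -/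
private theorem row {B : Finset (Fin n)} {b b' : Fin n} (hb : b ∈ B) (hb' : b' ∈ B) (hbb : b ≠ b') {g f : Fin n → ℝ}
    {c : ℝ} (hgf : ∀ y ∈ B, g y ≤ f y) (hf : ∀ y ∈ B, y ≠ b → y ≠ b' → f y = c) :
    ∑ y ∈ B, g y ≤ g b + (g b' + ((B.card : ℝ) - 2) * c) := by
  classical
  have h := sum_side hb hb' hbb (f := fun y => if y = b ∨ y = b' then g y else c) (c := c) (by
    intro y _ h1 h2
    exact if_neg (by tauto))
  rw [if_pos (Or.inl rfl), if_pos (Or.inr rfl)] at h
  rw [← h]
  refine sum_le_sum fun y hy => ?_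
  by_cases h1 : y = b ∨ y = b'
  · rw [if_pos h1]
  · rw [if_neg h1, ← hf y hy (fun h => h1 (Or.inl h)) (fun h => h1 (Or.inr h))]
    exact hgf y hy

/-- (E1c, M) The weights.
PROOF.  `0 < n`.  `sA = (|A| - 2) / n`, `sB = (|B| - 2) / n`, both in `[0, 1)` (`|A|, |B| ≤ n`).
`x a = 4 + sB`, `x a' = 2`, `x b = 4 + sA`, `x b' = 2`, `x v = 1 / n` otherwise (nested `if`).  All positive, and both
sums are `6 + sA + sB` (split off `a`, `a'`: `Finset.sum_erase_eq_sub` / `Finset.add_sum_erase`).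
`H24F.transport_drawing` with `H98W.hz_table (H53P.table D)` gives `G` and `w ≥ 0`.  For all `s ∈ A`, `t ∈ B`:
`w s t ≤ x s`, `w s t ≤ x t` (a term of a sum of nonnegative terms).
(1) `w a b ≠ 0`: otherwise `x a = ∑ t ∈ B.erase b, w a t ≤ ∑ t ∈ B.erase b, x t = 2 + sB < 4 + sB`.
(2) if `w a' b' = 0` then `2 = x a' = w a' b + ∑ t ∈ (B.erase b).erase b', w a' t ≤ w a' b + sB`, so
`w a' b ≠ 0`; in the same way `2 = x b' = w a b' + ∑ … ≤ w a b' + sA`, so `w a b' ≠ 0`.  `w s t ≠ 0` implies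
`G.Adj s t`. -/
theorem cy_weights {A B : Finset (Fin n)} (hAB : Disjoint A B) {a a' b b' : Fin n} (ha : a ∈ A) (ha' : a' ∈ A)
    (haa : a ≠ a') (hb : b ∈ B) (hb' : b' ∈ B) (hbb : b ≠ b') :
    ∃ G : SimpleGraph (Fin n), H24F.PT D A B G ∧ ((G.Adj a b ∧ G.Adj a' b') ∨ (G.Adj a b' ∧ G.Adj a' b)) := by
  classical
  have hZ := H98W.hz_table (H53P.table D)
  have hn0 : 0 < n := lt_of_le_of_lt (Nat.zero_le _) a.2
  have hn : (0 : ℝ) < n := by exact_mod_cast hn0
  have hne : ∀ {u v : Fin n}, u ∈ A → v ∈ B → v ≠ u := fun hu hv h => disjoint_left.1 hAB hu (h ▸ hv)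
  have hA2 : (2 : ℝ) ≤ A.card := by
    have : ({a, a'} : Finset (Fin n)).card ≤ A.card := card_le_card (by
      intro y hy
      rcases mem_insert.1 hy with h | h
      · exact h ▸ ha
      · rw [mem_singleton.1 h]; exact ha')
    rw [card_pair haa] at this
    exact_mod_cast this
  have hB2 : (2 : ℝ) ≤ B.card := by
    have : ({b, b'} : Finset (Fin n)).card ≤ B.card := card_le_card (by
      intro y hy
      rcases mem_insert.1 hy with h | h
      · exact h ▸ hb
      · rw [mem_singleton.1 h]; exact hb')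
    rw [card_pair hbb] at this
    exact_mod_cast this
  have hAn : (A.card : ℝ) ≤ n := by
    have := card_le_univ A
    rw [Fintype.card_fin] at this
    exact_mod_cast this
  have hBn : (B.card : ℝ) ≤ n := by
    have := card_le_univ B
    rw [Fintype.card_fin] at this
    exact_mod_cast this
  obtain ⟨sA, hsA⟩ : ∃ s : ℝ, s = ((A.card : ℝ) - 2) * (1 / (n : ℝ)) := ⟨_, rfl⟩
  obtain ⟨sB, hsB⟩ : ∃ s : ℝ, s = ((B.card : ℝ) - 2) * (1 / (n : ℝ)) := ⟨_, rfl⟩
  have hsA0 : 0 ≤ sA := by rw [hsA]; exact mul_nonneg (by linarith) (by positivity)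
  have hsB0 : 0 ≤ sB := by rw [hsB]; exact mul_nonneg (by linarith) (by positivity)
  have hsA1 : sA < 1 := by rw [hsA, mul_one_div, div_lt_one hn]; linarith
  have hsB1 : sB < 1 := by rw [hsB, mul_one_div, div_lt_one hn]; linarith
  obtain ⟨x, hx⟩ : ∃ x : Fin n → ℝ, x = fun y => if y = a then 4 + sB else if y = a' then 2 else
      if y = b then 4 + sA else if y = b' then 2 else 1 / (n : ℝ) := ⟨_, rfl⟩
  have hxa : x a = 4 + sB := by rw [hx]; simp
  have hxa' : x a' = 2 := by rw [hx]; simp [haa.symm]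
  have hxb : x b = 4 + sA := by rw [hx]; simp [hne ha hb, hne ha' hb]
  have hxb' : x b' = 2 := by rw [hx]; simp [hne ha hb', hne ha' hb', hbb.symm]
  have hxA : ∀ y ∈ A, y ≠ a → y ≠ a' → x y = 1 / (n : ℝ) := by
    intro y hy h1 h2
    rw [hx]
    simp [h1, h2, (hne hy hb).symm, (hne hy hb').symm]
  have hxB : ∀ y ∈ B, y ≠ b → y ≠ b' → x y = 1 / (n : ℝ) := by
    intro y hy h1 h2
    rw [hx]
    simp [h1, h2, hne ha hy, hne ha' hy]
  have hxpos : ∀ v ∈ A ∪ B, 0 < x v := by
    intro v _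
    rw [hx]
    dsimp only
    split_ifs <;> positivity
  have hsum1 : ∑ y ∈ A, x y = 6 + sA + sB := by
    rw [sum_side ha ha' haa hxA, hxa, hxa', ← hsA]
    ring
  have hsum2 : ∑ y ∈ B, x y = 6 + sA + sB := by
    rw [sum_side hb hb' hbb hxB, hxb, hxb', ← hsB]
    ring
  obtain ⟨G, hG, w, hw0, hwG, hwA, hwB⟩ := H24F.transport_drawing D hZ hAB ⟨a, ha⟩ ⟨b, hb⟩ hxpos
    (hsum1.trans hsum2.symm)
  have hle1 : ∀ s ∈ A, ∀ t ∈ B, w s t ≤ x t := by
    intro s hs t ht
    rw [← hwB t ht]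
    exact single_le_sum (f := fun s => w s t) (fun i _ => hw0 i t) hs
  have hle2 : ∀ t ∈ B, ∀ s ∈ A, w s t ≤ x s := by
    intro t ht s hs
    rw [← hwA s hs]
    exact single_le_sum (f := fun t => w s t) (fun i _ => hw0 s i) ht
  refine ⟨G, hG, ?_⟩
  have r1 := row hb hb' hbb (g := fun t => w a t) (f := x) (hle1 a ha) hxB
  have r2 := row hb hb' hbb (g := fun t => w a' t) (f := x) (hle1 a' ha') hxB
  have r3 := row ha ha' haa (g := fun s => w s b') (f := x) (hle2 b' hb') hxA
  rw [hwA a ha, hxa, ← hsB] at r1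
  rw [hwA a' ha', hxa', ← hsB] at r2
  rw [hwB b' hb', hxb', ← hsA] at r3
  have q1 := hle1 a ha b' hb'
  have q2 := hle2 b' hb' a' ha'
  rw [hxb'] at q1
  have g1 : G.Adj a b := by
    apply hwG
    intro h
    rw [h] at r1
    linarith
  by_cases h0 : w a' b' = 0
  · right
    rw [h0] at r2 r3
    constructor
    · apply hwG
      intro h
      rw [h] at r3
      linarith
    · apply hwG
      intro h
      rw [h] at r2
      linarith
  · exact Or.inl ⟨g1, hwG _ _ h0⟩

end H5CY
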