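import Pool.Agent.Lib.H5CY.A5
import Pool.Agent.Lib.H5CY.B3
import Pool.Agent.Lib.H5CY.C2
import Pool.Agent.Lib.H5CY.F1

/-! # H5CY: plane Hamiltonian subdrawings with `2n - 3` edges in cylindrical drawings -/

set_option autoImplicit false

namespace H5CY

open H53P SimpleDraw

variable {n : ℕ}

private theorem f_ne {α : Type*} {R : α → α → Prop} : ∀ l : List α, l.Nodup → l.IsChain R →
    l.IsChain (fun a b => a ≠ b ∧ R a b)
  | [], _, _ => List.isChain_nil
  | [a], _, _ => List.isChain_singleton a
  | a :: b :: l, hn, h => by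
    have h' := List.isChain_cons_cons.1 h
    refine List.isChain_cons_cons.2 ⟨⟨?_, h'.1⟩, f_ne (b :: l) (List.nodup_cons.1 hn).2 h'.2⟩
    rintro rfl
    exact (List.nodup_cons.1 hn).1 (by simp)

private theorem f_good {V : Type*} {T : Table V} {κ : V → Bool} (hκ : ∀ x y, κ x = κ y) {u v : V}
    (h : Law T κ u v) : Good T u v := by
  obtain ⟨b, hb⟩ := h
  intro x y
  by_contra hX
  have hX' : T.X x y u v = true := by simpa using hX
  obtain ⟨_, _, h1, h2, h3, h4⟩ := T.ne x y u v hX'
  exact ((hb x y h1 h2 h3 h4).1 hX').2 (hκ x y)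

private theorem f_one (hn : 3 ≤ n) (D : SimpleDrawing n) {κ : Fin n → Bool} (hκ : ∀ x y, κ x = κ y)
    {m : List (Fin n)} (hm : m.Nodup) (hall : ∀ x, x ∈ m) (hc : m.IsChain (Law (table D) κ)) :
    D.HasPlaneHamiltonian := by
  have hg : m.IsChain (Good (table D)) := hc.imp fun _ _ h => f_good hκ h
  match m, hm, hall, hg with
  | [], _, hall, _ => exact absurd (hall ⟨0, by omega⟩) (by simp)
  | [a], _, hall, _ =>
    have h0 := hall ⟨0, by omega⟩
    have h1 := hall ⟨1, by omega⟩
    simp only [List.mem_singleton] at h0 h1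
    have h2 := h0.trans h1.symm
    simp at h2
  | a :: b :: l, hm, hall, hg =>
    exact two_good_paths hn D (P := [a]) (Q := b :: l) (by simp) (by simp) hm hall (List.isChain_singleton a)
      (List.isChain_cons_cons.1 hg).2

/-- (F, M) Cylindrical drawings have a plane Hamiltonian subdrawing with `2n - 3` edges.
PROOF.  `κ x = decide (‖D.pt x - c‖ = r)` (classical).  `cy_enum` for `ρ = r` and `ρ = R` gives lists `l`, `m`,
`l` contains the vertices with `κ = true`, `m` those with `κ = false`.  `List.IsChain.imp` with `cy_law` (`FreeArc` has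
`u ≠ v`: the angles differ by less than `2π`; or get `u ≠ v` from `Nodup`): chains for `Law (table D) κ`.
If both are nonempty: `cy_rotate` for both, `two_good_paths` (`Perm` preserves nodup and membership).
If one is empty, say `m = []` (the other case is the same): all `κ x` agree, so the laws say `Good`: the chain `l` is a
`Good` chain.  `l = a :: l'` with `l' ≠ []` (`n ≥ 3` elements): `two_good_paths` with `P = [a]`, `Q = l'`. -/
theorem cyl_q1 (hn : 3 ≤ n) (D : SimpleDrawing n) {c : ℂ} {r R : ℝ} (h : CylWith D c r R) :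
    D.HasPlaneHamiltonian := by
  classical
  have hr : 0 < r := h.1
  have hrR : r < R := h.2.1
  have hpt := h.2.2.1
  obtain ⟨κ, hκ⟩ : ∃ κ : Fin n → Bool, ∀ x, κ x = true ↔ ‖D.pt x - c‖ = r :=
    ⟨fun x => decide (‖D.pt x - c‖ = r), fun x => by simp⟩
  have hκ' : ∀ x, κ x = false ↔ ‖D.pt x - c‖ = R := by
    intro x
    have h1 := hκ x
    constructor
    · intro hx
      rcases hpt x with h2 | h2
      · rw [h1.2 h2] at hx
        exact absurd hx (by simp)
      · exact h2
    · intro hx
      by_contra h3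
      have h4 : κ x = true := by simpa using h3
      rw [h1.1 h4] at hx
      exact absurd hx hrR.ne
  obtain ⟨l, hl1, hl2, hl3, hl4⟩ := cy_enum D (c := c) (ρ := r) hr
  obtain ⟨m, hm1, hm2, hm3, hm4⟩ := cy_enum D (c := c) (ρ := R) (hr.trans hrR)
  have hlc : l.IsChain (Law (table D) κ) := (f_ne l hl1 hl3).imp fun u v huv => by
    obtain ⟨hne, α, β, ha⟩ := huv
    exact cy_law D h hκ (Or.inl rfl) hne ha
  have hmc : m.IsChain (Law (table D) κ) := (f_ne m hm1 hm3).imp fun u v huv => by
    obtain ⟨hne, α, β, ha⟩ := huv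
    exact cy_law D h hκ (Or.inr rfl) hne ha
  have hle : ∀ a b, l.head? = some a → l.getLast? = some b → a ≠ b → Law (table D) κ b a := by
    intro a b ha hb hab
    obtain ⟨α, β, hf⟩ := hl4 a b ha hb hab
    exact cy_law D h hκ (Or.inl rfl) hab.symm hf
  have hme : ∀ a b, m.head? = some a → m.getLast? = some b → a ≠ b → Law (table D) κ b a := by
    intro a b ha hb hab
    obtain ⟨α, β, hf⟩ := hm4 a b ha hb hab
    exact cy_law D h hκ (Or.inr rfl) hab.symm hf
  have hlκ : ∀ x, x ∈ l ↔ κ x = true := fun x => (hl2 x).trans (hκ x).symm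
  have hmκ : ∀ x, x ∈ m ↔ κ x = false := fun x => (hm2 x).trans (hκ' x).symm
  rcases List.eq_nil_or_concat l with hl0 | ⟨l0, y, hl0⟩
  · have hall : ∀ x, κ x = false := by
      intro x
      by_contra h3
      have h4 : κ x = true := by simpa using h3
      have := (hlκ x).2 h4
      rw [hl0] at this
      exact absurd this (by simp)
    exact f_one hn D (fun x y => (hall x).trans (hall y).symm) hm1 (fun x => (hmκ x).2 (hall x)) hmc
  rcases List.eq_nil_or_concat m with hm0 | ⟨m0, z, hm0⟩
  · have hall : ∀ x, κ x = true := by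
      intro x
      by_contra h3
      have h4 : κ x = false := by simpa using h3
      have := (hmκ x).2 h4
      rw [hm0] at this
      exact absurd this (by simp)
    exact f_one hn D (fun x y => (hall x).trans (hall y).symm) hl1 (fun x => (hlκ x).2 (hall x)) hlc
  have hy : κ y = true := (hlκ y).1 (by rw [hl0]; simp)
  have hz : κ z = false := (hmκ z).1 (by rw [hm0]; simp)
  obtain ⟨l', hlp, hlg⟩ := cy_rotate (y := z) hl1 hlκ (by rw [hz]; simp) hlc hle
  obtain ⟨m', hmp, hmg⟩ := cy_rotate (y := y) hm1 hmκ (by rw [hy]; simp) hmc hme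
  refine two_good_paths hn D (P := l') (Q := m') ?_ ?_ ?_ ?_ hlg hmg
  · intro h0
    rw [h0] at hlp
    have := hlp.symm.eq_nil
    rw [hl0] at this
    simp at this
  · intro h0
    rw [h0] at hmp
    have := hmp.symm.eq_nil
    rw [hm0] at this
    simp at this
  · rw [List.nodup_append]
    refine ⟨hlp.nodup_iff.2 hl1, hmp.nodup_iff.2 hm1, ?_⟩
    intro a ha b hb hab
    have h1 := (hlκ a).1 (hlp.mem_iff.1 ha)
    have h2 := (hmκ b).1 (hmp.mem_iff.1 hb)
    rw [hab, h2] at h1
    exact absurd h1 (by simp)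
  · intro v
    rw [List.mem_append, hlp.mem_iff, hmp.mem_iff, hlκ, hmκ]
    cases κ v <;> simp

end H5CY
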